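import Pool.Agent.Lib.MP_4e651d_al.NoCycle

/-!
An infinite descending chain of compactly generated subgroups.
-/

set_option autoImplicit false

open Set Filter Topology

namespace Pool.Agent.Lib.MP_4e651d_al

section General

variable {H H' : Type*} [Group H] [TopologicalSpace H] [Group H'] [TopologicalSpace H']

/-- `K'` lies in every subgroup that is normalised by `K` and meets `K` in a relatively open set. -/
def Step (K' K : Subgroup H) : Prop :=
  ∀ O : Subgroup H, (∃ A, IsOpen A ∧ (1 : H) ∈ A ∧ ∀ x ∈ A, x ∈ K → x ∈ O) →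
    (∀ k ∈ K, ∀ x ∈ O, k * x * k⁻¹ ∈ O) → K' ≤ O

/-- `K` is generated by a compact set. -/
def Gen (K : Subgroup H) : Prop := ∃ S : Set H, IsCompact S ∧ Subgroup.closure S = K

theorem Step.map {K' K : Subgroup H} (h : Step K' K) (π : H →* H') (hπ : Continuous π) :
    Step (K'.map π) (K.map π) := by
  rintro O ⟨A, h1, h2, h3⟩ hn
  rw [Subgroup.map_le_iff_le_comap]
  refine h _ ⟨π ⁻¹' A, h1.preimage hπ, by simpa using h2, fun x hx hk => h3 _ hx ⟨x, hk, rfl⟩⟩ ?_
  intro k hk x hx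
  simpa using hn _ ⟨k, hk, rfl⟩ _ hx

theorem Gen.map {K : Subgroup H} (h : Gen K) (π : H →* H') (hπ : Continuous π) :
    Gen (K.map π) := by
  obtain ⟨S, h1, rfl⟩ := h
  exact ⟨π '' S, h1.image hπ, (MonoidHom.map_closure π S).symm⟩

theorem Step.le {K' K : Subgroup H} (h : Step K' K) : K' ≤ K :=
  h K ⟨univ, isOpen_univ, trivial, fun _ _ h => h⟩ fun _ hk _ hx =>
    K.mul_mem (K.mul_mem hk hx) (K.inv_mem hk)

theorem Step.subgroupOf {K' K N : Subgroup H} (h : Step K' K) (hN : K ≤ N) :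
    Step (K'.subgroupOf N) (K.subgroupOf N) := by
  rintro O ⟨A, h1, h2, h3⟩ hn x hx
  obtain ⟨B, hB, rfl⟩ := isOpen_induced_iff.1 h1
  have : K' ≤ O.map N.subtype := by
    refine h _ ⟨B, hB, h2, fun y hy hk => ⟨⟨y, hN hk⟩, h3 _ hy hk, rfl⟩⟩ ?_
    rintro k hk _ ⟨y, hy, rfl⟩
    exact ⟨_, hn ⟨k, hN hk⟩ hk y hy, rfl⟩
  obtain ⟨y, hy, e⟩ := this hx
  rwa [← Subtype.ext e]

theorem Gen.subgroupOf {K N : Subgroup H} (h : Gen K) (hN : K ≤ N) : Gen (K.subgroupOf N) := by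
  obtain ⟨S, h1, rfl⟩ := h
  have hS : S ⊆ N := Subgroup.subset_closure.trans hN
  have e : N.subtype '' (N.subtype ⁻¹' S) = S :=
    image_preimage_eq_of_subset (fun x hx => ⟨⟨x, hS hx⟩, rfl⟩)
  refine ⟨N.subtype ⁻¹' S, Subtype.isCompact_iff.2 (by convert h1; exact e), ?_⟩
  apply Subgroup.map_injective N.subtype_injective
  rw [MonoidHom.map_closure, e, Subgroup.subgroupOf_map_subtype, inf_eq_left.2 hN]

end General

/-- The conditional sign change as an element of the group. -/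
noncomputable def phG : G := ⟨ph, InG.u ph_mem⟩

/-- The basic compactly generated open subgroup. -/
noncomputable def K0 : Subgroup G := Subgroup.closure ((VS ∅ : Set G) ∪ {beG, tG 1, spG 1})

theorem U_le_K0 : VS ∅ ≤ K0 := fun _ h => Subgroup.subset_closure (Or.inl h)

theorem be_K0 : beG ∈ K0 := Subgroup.subset_closure (Or.inr (by simp))

theorem sp_K0 : spG 1 ∈ K0 := Subgroup.subset_closure (Or.inr (by simp))

theorem tG_add (k k' : ℤ) : tG (k + k') = tG k * tG k' := Subtype.ext (t_add k k')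

theorem tG_neg (k : ℤ) : tG (-k) = (tG k)⁻¹ := Subtype.ext (t_inv k).symm

theorem t_K0 (k : ℤ) : tG k ∈ K0 := by
  have h1 : tG 1 ∈ K0 := Subgroup.subset_closure (Or.inr (by simp))
  induction k using Int.induction_on with
  | zero => exact (Subtype.ext t_zero : tG 0 = 1) ▸ K0.one_mem
  | succ n ih => rw [tG_add]; exact K0.mul_mem ih h1
  | pred n ih => rw [sub_eq_add_neg, tG_add, tG_neg 1]; exact K0.mul_mem ih (K0.inv_mem h1)

/-- An element creating a site at level two. -/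
noncomputable def rG : G := (tG 2)⁻¹ * (beG * phG * beG⁻¹) * (tG 2)⁻¹⁻¹

theorem rG_not_van {f : X} (hf : van 1 f) : ¬ van 1 (rG.1 f) := by
  intro h
  have h0 : ∀ w, o ≤ w → t 2 f w = 0 := by
    intro w hw
    obtain ⟨l, s, rfl⟩ := c_cases w
    rw [← c_o, c_le_c] at hw
    rw [← blk_apply, blk_t, hf _ (by omega)]
    rfl
  have h1 : vo (t 2 f) := fun w hw => h0 w hw.le
  have h2 := congrArg (· o) (h 2 (by omega))
  change blk ((t 2)⁻¹ (be (ph (be⁻¹ ((t 2)⁻¹⁻¹ f))))) 2 o = 0 at h2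
  rw [inv_inv, be_inv, t_inv, blk_t, blk_apply, show (2 : ℤ) + -2 = 0 by omega, c_o, be_apply,
    if_pos ⟨(vo_cs 1 2 _).2 ((vo_be _).2 h1), rfl⟩, ph, cs_apply, if_pos ⟨(vo_be _).2 h1, rfl⟩,
    be_apply, if_pos ⟨h1, rfl⟩, h0 o le_rfl] at h2
  exact absurd h2 (by decide)

theorem lift_of_blk {g x : Equiv.Perm X} (a : ℤ → X → X) (h1 : ∀ f, van 0 (g f) ↔ van 0 f)
    (h2 : ∀ f, van 0 f → blk (g f) 0 = x (blk f 0))
    (h3 : ∀ f, van 0 f → ∀ l, l ≠ 0 → blk (g f) l = a l (blk f l)) (y : Equiv.Perm X) :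
    g * io y * g⁻¹ = io (x * y * x⁻¹) := by
  rw [mul_inv_eq_iff_eq_mul]
  refine Equiv.ext fun f => ?_
  rw [Equiv.Perm.mul_apply, Equiv.Perm.mul_apply]
  by_cases hf : van 0 f
  · have hf' := (van_io y f).2 hf
    refine ext_blk fun l => ?_
    by_cases hl : l = 0
    · subst hl
      rw [h2 _ hf', blk_io, if_pos ⟨hf, rfl⟩, blk_io, if_pos ⟨(h1 f).2 hf, rfl⟩, h2 _ hf]
      simp
    · rw [h3 _ hf' l hl, blk_io, if_neg (fun h => hl h.2), blk_io, if_neg (fun h => hl h.2),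
        h3 _ hf l hl]
  · rw [io_of_not _ hf, io_of_not _ (by rwa [h1])]

theorem sp_zero_iff (k : ℤ) (x : X) : sp k x = 0 ↔ x = 0 := by
  have : sp k 0 = 0 := by simpa [pt] using sp_pt k 0
  rw [← this, (sp k).injective.eq_iff, this]

theorem van_t (f : X) : van 0 (t 1 f) ↔ van 1 f := by
  constructor
  · intro h l hl
    have := h (l - 1) (by omega)
    rwa [blk_t, sub_add_cancel] at this
  · intro h l hl
    rw [blk_t, h _ (by omega)]

open Classical in
theorem blk_tsp (f : X) (l : ℤ) : blk (((t 1)⁻¹ * sp 1 * t 1) f) l =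
    if van 1 f ∧ l = 1 then sp 1 (blk f 1) else if van 1 f ∧ l = 0 then t 1 (blk f 0)
    else blk f l := by
  have e1 : l + -1 = 0 ↔ l = 1 := by omega
  have e2 : l + -1 = -1 ↔ l = 0 := by omega
  rw [Equiv.Perm.mul_apply, Equiv.Perm.mul_apply, t_inv, blk_t, blk_sp]
  simp only [e1, e2, van_t, blk_t]
  simp

/-- Lifts of the generators. -/
noncomputable def D : Set G := ioG '' (VS ∅ : Set G) ∪ {beG, (tG 1)⁻¹ * spG 1 * tG 1, spG 1}

theorem D_K0 : D ⊆ K0 := by
  rintro _ (⟨u, hu, rfl⟩ | rfl | rfl | rfl)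
  · exact U_le_K0 ⟨io_mem hu.1, by simp⟩
  · exact be_K0
  · exact K0.mul_mem (K0.mul_mem (K0.inv_mem (t_K0 1)) sp_K0) (t_K0 1)
  · exact sp_K0

theorem D_fix {g : G} (hg : g ∈ D) {f : X} (hf : ¬ van 1 f) : g.1 f = f := by
  have hf' : ¬ van 0 f := fun h => hf (h.mono (by omega))
  rcases hg with ⟨u, hu, rfl⟩ | rfl | rfl | rfl
  · exact io_of_not _ hf'
  · change be f = f
    rw [← io_be]
    exact io_of_not be hf'
  · refine ext_blk fun l => ?_
    change blk (((t 1)⁻¹ * sp 1 * t 1) f) l = _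
    rw [blk_tsp]
    simp [hf]
  · refine ext_blk fun l => ?_
    change blk (sp 1 f) l = _
    simp [blk_sp, hf']

theorem D_lift {x : G} (hx : x ∈ (VS ∅ : Set G) ∪ {beG, tG 1, spG 1}) :
    ∃ g ∈ D, ∀ y, g * ioG y * g⁻¹ = ioG (x * y * x⁻¹) := by
  classical
  rcases hx with hx | rfl | rfl | rfl
  · exact ⟨ioG x, Or.inl ⟨x, hx, rfl⟩, fun y => by simp⟩
  · refine ⟨beG, Or.inr (by simp), fun y => ?_⟩
    have : ioG beG = beG := Subtype.ext io_be
    rw [map_mul, map_mul, map_inv, this]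
  · refine ⟨(tG 1)⁻¹ * spG 1 * tG 1, Or.inr (by simp), fun y => Subtype.ext ?_⟩
    refine lift_of_blk (g := (t 1)⁻¹ * sp 1 * t 1) (x := t 1)
      (fun l z => if l = 1 then sp 1 z else z) (fun f => ?_) (fun f hf => ?_)
      (fun f hf l hl => ?_) y.1
    · refine forall_congr' fun l => imp_congr_right fun hl => ?_
      rw [blk_tsp]
      split_ifs with h1 h2
      · rw [sp_zero_iff, h1.2]
      · omega
      · rfl
    · rw [blk_tsp]
      simp [hf.mono (show (0 : ℤ) ≤ 1 by omega)]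
    · rw [blk_tsp]
      by_cases h : l = 1 <;> simp [hf.mono (show (0 : ℤ) ≤ 1 by omega), hl, h]
  · refine ⟨spG 1, Or.inr (by simp), fun y => Subtype.ext ?_⟩
    refine lift_of_blk (g := sp 1) (x := sp 1)
      (fun l z => if l = -1 then t 1 z else z) (fun f => ?_) (fun f hf => ?_)
      (fun f hf l hl => ?_) y.1
    · refine forall_congr' fun l => imp_congr_right fun hl => ?_
      rw [blk_sp, if_neg (by omega), if_neg (by omega)]
    · simp [blk_sp, hf]
    · by_cases h : l = -1 <;> simp [blk_sp, hf, hl, h]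

/-- The generators of the first group of the chain. -/
noncomputable def C1 : Set G := (fun g => g * rG⁻¹ * g⁻¹ * rG) '' D ∪ {phG}

theorem C1_compact : IsCompact C1 := by
  have : IsCompact D := (compact_U.image ioG_continuous).union (toFinite _).isCompact
  exact (this.image (by fun_prop)).union isCompact_singleton

/-- The first group of the chain. -/
noncomputable def L1 : Subgroup G := Subgroup.closure C1

theorem ph_L1 : phG ∈ L1 := Subgroup.subset_closure (Or.inr rfl)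

theorem lift {x : G} (hx : x ∈ K0) : ∃ e ∈ L1, ∀ y, e * ioG y * e⁻¹ = ioG (x * y * x⁻¹) := by
  induction hx using Subgroup.closure_induction with
  | mem x hx =>
    obtain ⟨g, hg, h⟩ := D_lift hx
    refine ⟨_, Subgroup.subset_closure (Or.inl ⟨g, hg, rfl⟩), fun y => ?_⟩
    have hd : Equiv.Perm.Disjoint (rG⁻¹ * g⁻¹ * rG).1 (ioG y).1 := fun f => by
      by_cases hf : van 0 f
      · left
        change rG.1⁻¹ (g.1⁻¹ (rG.1 f)) = f
        rw [fix_inv (D_fix hg (rG_not_van (hf.mono (by omega))))]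
        simp
      · exact Or.inr (io_of_not _ hf)
    have hc : (rG⁻¹ * g⁻¹ * rG) * ioG y = ioG y * (rG⁻¹ * g⁻¹ * rG) := Subtype.ext hd.commute.eq
    rw [← h]
    calc _ = g * ((rG⁻¹ * g⁻¹ * rG) * ioG y) * (rG⁻¹ * g⁻¹ * rG)⁻¹ * g⁻¹ := by group
      _ = _ := by rw [hc]; group
  | one => exact ⟨1, L1.one_mem, fun y => by simp⟩
  | mul x x' _ _ h h' =>
    obtain ⟨e, he, h⟩ := h
    obtain ⟨e', he', h'⟩ := h'
    refine ⟨e * e', L1.mul_mem he he', fun y => ?_⟩
    calc _ = e * (e' * ioG y * e'⁻¹) * e⁻¹ := by group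
      _ = _ := by rw [h', h]; simp only [mul_assoc, mul_inv_rev]
  | inv x _ h =>
    obtain ⟨e, he, h⟩ := h
    refine ⟨e⁻¹, L1.inv_mem he, fun y => ?_⟩
    have := h (x⁻¹ * y * x⁻¹⁻¹)
    rw [show x * (x⁻¹ * y * x⁻¹⁻¹) * x⁻¹ = y by group] at this
    rw [← this]
    group

theorem ioG_ph : ioG phG = phG := Subtype.ext io_ph

theorem exists_small (S : Finset X) : ∃ n, tG n * phG * (tG n)⁻¹ ∈ VS S := by
  classical
  have hfin : ((fun n : ℤ => c n o) ⁻¹' (S.biUnion Finsupp.support : Finset Om)).Finite :=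
    (Finset.finite_toSet _).preimage fun a _ b _ h => (c_inj.1 h).1
  obtain ⟨n, hn⟩ := hfin.exists_notMem
  refine ⟨-n, t_conj _ _ ph_mem, fun f hf => ?_⟩
  change t (-n) (ph ((t (-n))⁻¹ f)) = f
  rw [ph_fix]
  · simp
  · rw [t_inv, t_apply, ← c_o, sh_c, neg_neg, zero_add]
    by_contra h
    exact hn (by simpa using ⟨f, hf, h⟩)

theorem step_L1 : Step (L1.map ioG) L1 := by
  have norm : ∀ O : Subgroup G, (∀ k ∈ L1, ∀ x ∈ O, k * x * k⁻¹ ∈ O) →
      ∀ k ∈ K0, ∀ x ∈ O.comap ioG, k * x * k⁻¹ ∈ O.comap ioG := fun O hn k hk x hx => by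
    obtain ⟨e, he, h⟩ := lift hk
    rw [Subgroup.mem_comap, ← h]
    exact hn e he _ hx
  rintro O ⟨A, h1, h2, h3⟩ hn
  have hO := norm O hn
  have hL := norm L1 fun k hk x hx => L1.mul_mem (L1.mul_mem hk hx) (L1.inv_mem hk)
  obtain ⟨S, hS⟩ := exists_VS (h1.preimage ioG_continuous) (by simpa using h2)
  obtain ⟨n, hn'⟩ := exists_small S
  have hph : phG ∈ O.comap ioG := by
    have : tG n * phG * (tG n)⁻¹ ∈ O.comap ioG :=
      h3 _ (hS hn') (hL _ (t_K0 n) _ (by rw [Subgroup.mem_comap, ioG_ph]; exact ph_L1))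
    simpa [mul_assoc] using hO _ (K0.inv_mem (t_K0 n)) _ this
  have hr : rG ∈ O.comap ioG := hO _ (K0.inv_mem (t_K0 2)) _ (hO _ be_K0 _ hph)
  rw [Subgroup.map_le_iff_le_comap, L1, Subgroup.closure_le]
  rintro _ (⟨g, hg, rfl⟩ | rfl)
  · exact Subgroup.mul_mem _ (hO _ (D_K0 hg) _ (Subgroup.inv_mem _ hr)) hr
  · exact hph

theorem exists_chain : ∃ K : ℕ → Subgroup G, ∀ n, Gen (K n) ∧ K n ≠ ⊥ ∧ Step (K (n + 1)) (K n) := by
  let J : ℕ → (G →* G) := fun n => Nat.rec (MonoidHom.id G) (fun _ j => j.comp ioG) n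
  have hJ : ∀ n, Continuous (J n) ∧ J n phG = phG := fun n => by
    induction n with
    | zero => exact ⟨continuous_id, rfl⟩
    | succ n ih =>
      exact ⟨ih.1.comp ioG_continuous, by change J n (ioG phG) = _; rw [ioG_ph, ih.2]⟩
  refine ⟨fun n => L1.map (J n), fun n => ⟨Gen.map ⟨C1, C1_compact, rfl⟩ _ (hJ n).1, ?_, ?_⟩⟩
  · intro h
    have : phG ∈ L1.map (J n) := ⟨phG, ph_L1, (hJ n).2⟩
    simp only [h, Subgroup.mem_bot] at this
    exact ph_ne_one (congrArg Subtype.val this)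
  · have := step_L1.map (J n) (hJ n).1
    rwa [Subgroup.map_map] at this

end Pool.Agent.Lib.MP_4e651d_al
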