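import Pool.Agent.Lib.MP_4e651d_al.Sites

/-!
The embedding into block zero, the site swap and the spinal permutations.
-/

set_option autoImplicit false

open Set

namespace Pool.Agent.Lib.MP_4e651d_al

theorem ge_c_iff {l : ℤ} {s : Om} {f f' : X} :
    (∀ w', c l s ≤ w' → f w' = f' w') ↔
      ag (l + 1) f f' ∧ ∀ s', s ≤ s' → blk f l s' = blk f' l s' := by
  constructor
  · intro H
    refine ⟨fun l' hl => ?_, fun s' hs => H _ (c_le_c.2 (Or.inr ⟨rfl, hs⟩))⟩
    ext s'
    exact H _ (c_le_c.2 (Or.inl (by omega)))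
  · rintro ⟨H1, H2⟩ w' hw'
    obtain ⟨m, s', rfl⟩ := c_cases w'
    rcases c_le_c.1 hw' with h | ⟨rfl, h⟩
    · exact congrArg (· s') (H1 m (by omega))
    · exact H2 s' h

open Classical in
/-- Act on block zero when the configuration vanishes above it. -/
noncomputable def io' (g : X → X) (f : X) : X :=
  if van 0 f then upd f 0 (g (blk f 0)) else f

open Classical in
theorem blk_io' (g : X → X) (f : X) (l : ℤ) :
    blk (io' g f) l = if van 0 f ∧ l = 0 then g (blk f 0) else blk f l := by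
  unfold io'
  by_cases h : van 0 f
  · simp [h, blk_upd]
  · simp [h]

theorem ag_io' (g : X → X) (f : X) : ag (0 + 1) (io' g f) f := by
  intro l hl
  rw [blk_io', if_neg (by omega)]

theorem van_io' (g : X → X) (f : X) : van 0 (io' g f) ↔ van 0 f := van_congr (ag_io' g f)

theorem io'_comp (g h : X → X) (f : X) : io' g (io' h f) = io' (fun x => g (h x)) f := by
  refine ext_blk fun l => ?_
  have e := van_io' h f
  by_cases h1 : van 0 f <;> by_cases h2 : l = 0 <;> simp [blk_io', e, h1, h2]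

theorem io'_id {g : X → X} (hg : ∀ x, g x = x) (f : X) : io' g f = f := by
  refine ext_blk fun l => ?_
  rw [blk_io']
  split_ifs with h
  · rw [hg, h.2]
  · rfl

/-- The embedding into block zero. -/
noncomputable def io : Equiv.Perm X →* Equiv.Perm X where
  toFun g :=
    { toFun := io' g
      invFun := io' (g⁻¹ : Equiv.Perm X)
      left_inv := fun f => by rw [io'_comp]; exact io'_id (by simp) f
      right_inv := fun f => by rw [io'_comp]; exact io'_id (by simp) f }
  map_one' := Equiv.ext fun f => io'_id (fun _ => rfl) f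
  map_mul' g h := Equiv.ext fun f => (io'_comp g h f).symm

open Classical in
theorem blk_io (g : Equiv.Perm X) (f : X) (l : ℤ) :
    blk (io g f) l = if van 0 f ∧ l = 0 then g (blk f 0) else blk f l := blk_io' g f l

theorem van_io (g : Equiv.Perm X) (f : X) : van 0 (io g f) ↔ van 0 f := van_io' g f

theorem ag_io (g : Equiv.Perm X) (f : X) : ag (0 + 1) (io g f) f := ag_io' g f

theorem io_of_not (g : Equiv.Perm X) {f : X} (h : ¬ van 0 f) : io g f = f :=
  ext_blk fun l => by rw [blk_io, if_neg (fun h' => h h'.1)]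

theorem tri_io {g : Equiv.Perm X} (hg : Tri g) : Tri (io g) := by
  intro w f f' H
  obtain ⟨l, s, rfl⟩ := c_cases w
  obtain ⟨H1, H2⟩ := ge_c_iff.1 H
  rw [← blk_apply, ← blk_apply, blk_io, blk_io]
  by_cases hl : l = 0
  · subst hl
    rw [van_congr H1]
    by_cases hv : van 0 f'
    · simpa [hv] using hg s _ _ H2
    · simpa [hv] using H2 s le_rfl
  · simpa [hl] using H2 s le_rfl

theorem io_mem {g : Equiv.Perm X} (hg : g ∈ U) : io g ∈ U := by
  refine ⟨tri_io hg.1, by rw [← map_inv]; exact tri_io hg.2.1, fun f w => ?_⟩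
  obtain ⟨l, s, rfl⟩ := c_cases w
  rw [← blk_apply, ← blk_apply, blk_io]
  split_ifs with h
  · rw [hg.2.2, h.2]
  · rfl

/-- `s` is the section of `g` (with level shift `k`) at level `l` below the upper part of `h`. -/
def Sec (g : Equiv.Perm X) (k l : ℤ) (h : X) (s : Equiv.Perm X) : Prop :=
  ∀ f, ag (l + 1) f h → blk (g f) (l + k) = s (blk f l)

theorem Sec.apply {g s : Equiv.Perm X} {k l : ℤ} {h : X} (H : Sec g k l h s) (x : X) :
    s x = blk (g (upd h l x)) (l + k) := by
  rw [H _ (ag_upd h l x), blk_upd, if_pos rfl]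

theorem Sec.unique {g s s' : Equiv.Perm X} {k l : ℤ} {h : X} (H : Sec g k l h s)
    (H' : Sec g k l h s') : s = s' :=
  Equiv.ext fun x => by rw [H.apply, H'.apply]

theorem ag_upd_of {l : ℤ} {f h : X} (H : ag (l + 1) f h) : ag l f (upd h l (blk f l)) := by
  intro l' hl
  rw [blk_upd]
  split_ifs with e
  · rw [e]
  · exact H l' (by omega)

theorem sec_aux {u : Equiv.Perm X} (h1 : Tri u) (h2 : Tri (u⁻¹ : Equiv.Perm X)) (l : ℤ) (h x : X) :
    blk (u⁻¹ (upd (u h) l (blk (u (upd h l x)) l))) l = x := by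
  have := (h2.ag (ag_upd_of (h1.ag (ag_upd h l x)))) l le_rfl
  rw [← this]
  simp [blk_upd]

theorem tri_sec {u : Equiv.Perm X} (h1 : Tri u) (l : ℤ) (h : X) :
    Tri (fun x => blk (u (upd h l x)) l) := by
  intro s x x' H
  refine h1 _ _ _ (ge_c_iff.2 ⟨(ag_upd h l x).trans (ag_upd h l x').symm, ?_⟩)
  simpa [blk_upd] using H

theorem sec_U {u : Equiv.Perm X} (hu : u ∈ U) (l : ℤ) (h : X) : ∃ s ∈ U, Sec u 0 l h s := by
  refine ⟨⟨fun x => blk (u (upd h l x)) l, fun x => blk (u⁻¹ (upd (u h) l x)) l,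
    fun x => sec_aux hu.1 hu.2.1 l h x, fun x => ?_⟩, ⟨tri_sec hu.1 l h, tri_sec hu.2.1 l _, ?_⟩, ?_⟩
  · have := sec_aux (u := u⁻¹) hu.2.1 (by simpa using hu.1) l (u h) x
    simpa using this
  · intro x s
    change u (upd h l x) (c l s) = 0 ↔ _
    rw [hu.2.2, ← blk_apply, blk_upd, if_pos rfl]
  · intro f hf
    rw [add_zero]
    exact hu.1.ag (ag_upd_of hf) l le_rfl

/-- Conjugation by `g` carries a small enough subgroup of `U` into `U`. -/
def Comm (g : Equiv.Perm X) : Prop :=
  ∃ S : Finset X, ∀ u ∈ U, (∀ f ∈ S, u f = f) → g * u * g⁻¹ ∈ U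

theorem fix_inv {u : Equiv.Perm X} {f : X} (h : u f = f) : u⁻¹ f = f := by
  rw [Equiv.Perm.inv_eq_iff_eq, h]

theorem Comm.mul {g h : Equiv.Perm X} (hg : Comm g) (hh : Comm h) : Comm (g * h) := by
  classical
  obtain ⟨S, hS⟩ := hg
  obtain ⟨T, hT⟩ := hh
  refine ⟨T ∪ S.image (h⁻¹ ·), fun u hu H => ?_⟩
  have := hS _ (hT u hu fun f hf => H f (Finset.mem_union_left _ hf)) fun f hf => by
    rw [Equiv.Perm.mul_apply, Equiv.Perm.mul_apply,
      H (h⁻¹ f) (Finset.mem_union_right _ (Finset.mem_image_of_mem _ hf))]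
    simp
  simpa [mul_assoc] using this

open Classical in
theorem blk_io_conj {g u s : Equiv.Perm X} (hu : u ∈ U) (hs : Sec u 0 0 0 s) (f : X) (l : ℤ) :
    blk ((io g * u * (io g)⁻¹) f) l =
      if van 0 f ∧ l = 0 then (g * s * g⁻¹) (blk f 0) else blk (u (io g⁻¹ f)) l := by
  rw [← map_inv, Equiv.Perm.mul_apply, Equiv.Perm.mul_apply, blk_io, hu.2.2.van, van_io]
  split_ifs with h
  · have := hs (io g⁻¹ f) ((ag_io _ _).trans fun l hl => by rw [h.1 l (by omega), blk_zero])
    rw [add_zero] at this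
    rw [this, blk_io, if_pos ⟨h.1, rfl⟩]
    rfl
  · rfl

theorem Comm.io {g : Equiv.Perm X} (hg : Comm g) : Comm (io g) := by
  classical
  obtain ⟨S, hS⟩ := hg
  refine ⟨S.image (upd 0 0 ·), fun u hu H => ?_⟩
  have key : ∀ u, (u ∈ U ∧ ∀ f ∈ S.image (upd 0 0 ·), u f = f) →
      ∃ s, Sec u 0 0 0 s ∧ g * s * g⁻¹ ∈ U := by
    rintro u ⟨hu, H⟩
    obtain ⟨s, hs, hsec⟩ := sec_U hu 0 0
    refine ⟨s, hsec, hS s hs fun x hx => ?_⟩
    rw [hsec.apply, H _ (Finset.mem_image_of_mem _ hx), add_zero, blk_upd, if_pos rfl]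
  refine conj_mem_U (A := fun u => u ∈ U ∧ ∀ f ∈ S.image (upd 0 0 ·), u f = f)
    (fun u hu => ⟨U.inv_mem hu.1, fun f hf => fix_inv (hu.2 f hf)⟩) ?_ ?_ u ⟨hu, H⟩
  · intro u hu w f f' H
    obtain ⟨s, hs, hv⟩ := key u hu
    obtain ⟨l, s', rfl⟩ := c_cases w
    obtain ⟨H1, H2⟩ := ge_c_iff.1 H
    rw [← blk_apply, ← blk_apply, blk_io_conj hu.1 hs, blk_io_conj hu.1 hs]
    rcases lt_trichotomy l 0 with hl | rfl | hl
    · rw [if_neg (by omega), if_neg (by omega)]
      have e := van_congr (n := 0) (H1.mono (by omega))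
      refine hu.1.1 _ _ _ (ge_c_iff.2 ⟨fun m hm => ?_, ?_⟩)
      · rw [blk_io, blk_io, e, H1 0 (by omega), H1 m hm]
      · rw [blk_io, blk_io, if_neg (by omega), if_neg (by omega)]
        exact H2
    · rw [van_congr H1]
      by_cases h : van 0 f'
      · simpa [h] using hv.1 s' _ _ H2
      · rw [io_of_not _ h, io_of_not _ (by rwa [van_congr H1])]
        simpa [h, blk_apply] using hu.1.1 _ _ _ H
    · rw [if_neg (by omega), if_neg (by omega)]
      refine hu.1.1 _ _ _ (ge_c_iff.2 ⟨fun m hm => ?_, ?_⟩)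
      · rw [blk_io, blk_io, if_neg (by omega), if_neg (by omega), H1 m hm]
      · rw [blk_io, blk_io, if_neg (by omega), if_neg (by omega)]
        exact H2
  · intro u hu f w
    obtain ⟨s, hs, hv⟩ := key u hu
    obtain ⟨l, s', rfl⟩ := c_cases w
    rw [← blk_apply, ← blk_apply, blk_io_conj hu.1 hs]
    split_ifs with h
    · rw [hv.2.2, h.2]
    · rw [blk_apply, hu.1.2.2, ← blk_apply, blk_io, if_neg h]

/-- Vanishing above the zero site. -/
def vo (f : X) : Prop := ∀ w, o < w → f w = 0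

open Classical in
/-- The underlying map of a conditional swap at the zero site. -/
noncomputable def cs' (a b : ZMod 3) (f : X) : X :=
  if vo f then f.update o (Equiv.swap a b (f o)) else f

open Classical in
theorem cs'_apply (a b : ZMod 3) (f : X) (w : Om) :
    cs' a b f w = if vo f ∧ w = o then Equiv.swap a b (f o) else f w := by
  unfold cs'
  by_cases h : vo f
  · simp [h, Finsupp.update_apply]
  · simp [h]

theorem vo_cs' (a b : ZMod 3) (f : X) : vo (cs' a b f) ↔ vo f :=
  forall_congr' fun w => imp_congr_right fun hw => by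
    rw [cs'_apply, if_neg (fun h => hw.ne' h.2)]

/-- The conditional swap of two values at the zero site. -/
noncomputable def cs (a b : ZMod 3) : Equiv.Perm X :=
  Function.Involutive.toPerm (cs' a b) (by
    intro f
    ext w
    have e := vo_cs' a b f
    by_cases h1 : vo f <;> by_cases h2 : w = o <;> simp [cs'_apply, e, h1, h2])

open Classical in
theorem cs_apply (a b : ZMod 3) (f : X) (w : Om) :
    cs a b f w = if vo f ∧ w = o then Equiv.swap a b (f o) else f w := cs'_apply a b f w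

theorem vo_cs (a b : ZMod 3) (f : X) : vo (cs a b f) ↔ vo f := vo_cs' a b f

theorem cs_inv (a b : ZMod 3) : (cs a b)⁻¹ = cs a b := by ext f v; rfl

theorem tri_cs (a b : ZMod 3) : Tri (cs a b) := by
  intro w f f' H
  rw [cs_apply, cs_apply]
  by_cases h : w = o
  · subst h
    have e : vo f ↔ vo f' := forall_congr' fun w => imp_congr_right fun hw => by rw [H w hw.le]
    rw [e, H _ le_rfl]
  · simpa [h] using H w le_rfl

/-- The site swap. -/
noncomputable def be : Equiv.Perm X := cs 0 1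

open Classical in
theorem be_apply (f : X) (w : Om) :
    be f w = if vo f ∧ w = o then Equiv.swap 0 1 (f o) else f w := cs_apply 0 1 f w

theorem vo_be (f : X) : vo (be f) ↔ vo f := vo_cs 0 1 f

theorem be_inv : be⁻¹ = be := cs_inv 0 1

theorem tri_be : Tri be := tri_cs 0 1

/-- The conditional sign change. -/
noncomputable def ph : Equiv.Perm X := cs 1 2

theorem ph_mem : ph ∈ U := by
  refine ⟨tri_cs 1 2, by rw [ph, cs_inv]; exact tri_cs 1 2, fun f w => ?_⟩
  rw [ph, cs_apply]
  split_ifs with h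
  · rw [h.2]
    generalize f o = a
    revert a
    decide
  · rfl

theorem ph_fix {f : X} (h : f o = 0) : ph f = f := by
  ext w
  rw [ph, cs_apply]
  split_ifs with h'
  · rw [h'.2, h]; decide
  · rfl

theorem vo_iff (f : X) : vo f ↔ van 0 f ∧ vo (blk f 0) := by
  constructor
  · intro h
    refine ⟨fun l hl => ?_, fun s hs => h _ ?_⟩
    · ext s
      exact h _ (by rw [← c_o, c_lt_c]; exact Or.inl hl)
    · rw [← c_o, c_lt_c]; exact Or.inr ⟨rfl, hs⟩
  · rintro ⟨h1, h2⟩ w hw
    obtain ⟨l, s, rfl⟩ := c_cases w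
    rw [← c_o, c_lt_c] at hw
    rcases hw with h | ⟨rfl, h⟩
    · exact congrArg (· s) (h1 l h)
    · exact h2 s h

theorem io_cs (a b : ZMod 3) : io (cs a b) = cs a b := by
  classical
  ext f w
  obtain ⟨l, s, rfl⟩ := c_cases w
  have e : c l s = o ↔ l = 0 ∧ s = o := by rw [← c_inj, c_o]
  have e2 : f o = blk f 0 o := by rw [blk_apply, c_o]
  have e3 := vo_iff f
  rw [← blk_apply, blk_io, cs_apply, e2, ← blk_apply f l s]
  simp only [e, e3]
  by_cases h1 : van 0 f <;> by_cases h2 : l = 0 <;> simp [h1, h2, cs_apply]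

theorem io_be : io be = be := io_cs 0 1

theorem io_ph : io ph = ph := io_cs 1 2

/-- The configuration with a single value at the zero site. -/
noncomputable def pt (a : ZMod 3) : X := Finsupp.single o a

theorem sup_pt {u : X → X} (hu : Sup u) (a : ZMod 3) : u (pt a) = pt (u (pt a) o) := by
  ext w
  by_cases h : w = o
  · subst h; simp [pt]
  · have : pt a w = 0 := by simp [pt, Ne.symm h]
    rw [(hu _ _).2 this]
    simp [pt, Ne.symm h]

theorem fix_pt {u : Equiv.Perm X} (hu : u ∈ U) (h : u (pt 1) = pt 1) (a : ZMod 3) :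
    u (pt a) = pt a := by
  have h0 : ∀ a : ZMod 3, a = 0 ∨ a = 1 ∨ a = 2 := by decide
  rcases h0 a with rfl | rfl | rfl
  · simpa [pt] using hu.2.2.zero
  · exact h
  · have e := sup_pt hu.2.2 2
    rcases h0 (u (pt 2) o) with h' | h' | h'
    · rw [hu.2.2] at h'
      simp only [pt, Finsupp.single_eq_same] at h'
      exact absurd h' (by decide)
    · rw [h', ← h] at e
      have := congrArg (· o) (u.injective e)
      simp only [pt, Finsupp.single_eq_same] at this
      exact absurd this (by decide)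
    · rw [e, h']

/-- The stabiliser in `U` of the one-site configuration. -/
def Vp (u : Equiv.Perm X) : Prop := u ∈ U ∧ u (pt 1) = pt 1

theorem Vp.inv {u : Equiv.Perm X} (h : Vp u) : Vp u⁻¹ := ⟨U.inv_mem h.1, fix_inv h.2⟩

theorem Vp.at_o {u : Equiv.Perm X} (hu : Vp u) {f : X} (hf : vo f) : u f o = f o := by
  have : u f o = u (pt (f o)) o := by
    refine hu.1.1 _ _ _ fun w hw => ?_
    rcases hw.eq_or_lt with rfl | h
    · simp [pt]
    · simp [pt, hf w h, h.ne]
  rw [this, fix_pt hu.1 hu.2]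
  simp [pt]

theorem Vp.conj_U {u v : Equiv.Perm X} (hu : u ∈ U) (hv : Vp v) : Vp (u * v * u⁻¹) := by
  refine ⟨U.mul_mem (U.mul_mem hu hv.1) (U.inv_mem hu), ?_⟩
  have e := sup_pt (U.inv_mem hu).2.2 1
  rw [Equiv.Perm.mul_apply, Equiv.Perm.mul_apply, e, fix_pt hv.1 hv.2, ← e]
  simp

theorem vo_pt (a : ZMod 3) : vo (pt a) := fun w hw => by
  simp [pt, hw.ne]

theorem cs_pt (x y a : ZMod 3) : cs x y (pt a) = pt (Equiv.swap x y a) := by
  ext w
  rw [cs_apply]
  by_cases h : w = o
  · subst h; rw [if_pos ⟨vo_pt a, rfl⟩]; simp [pt]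
  · simp [h, pt]

theorem be_pt (a : ZMod 3) : be (pt a) = pt (Equiv.swap 0 1 a) := cs_pt 0 1 a

theorem ph_ne_one : ph ≠ 1 := fun h => by
  have := congrArg (fun g : Equiv.Perm X => g (pt 1) o) h
  simp only [ph, cs_pt, Equiv.swap_apply_left, Equiv.Perm.one_apply] at this
  simp only [pt, Finsupp.single_eq_same] at this
  exact absurd this (by decide)

theorem Vp.conj_be {v : Equiv.Perm X} (hv : Vp v) : Vp (be * v * be⁻¹) := by
  refine ⟨conj_mem_U (A := Vp) (fun u hu => hu.inv) ?_ ?_ v hv, ?_⟩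
  · intro u hu
    rw [be_inv]
    exact tri_be.comp (hu.1.1.comp tri_be)
  · intro u hu f w
    have e : vo (u (be f)) ↔ vo f := by
      rw [← vo_be f]
      exact forall_congr' fun w => imp_congr_right fun _ => hu.1.2.2 _ _
    rw [be_inv, Equiv.Perm.mul_apply, Equiv.Perm.mul_apply, be_apply, e]
    split_ifs with h
    · rw [hu.at_o ((vo_be f).2 h.1), be_apply, if_pos ⟨h.1, rfl⟩, h.2]
      simp
    · rw [hu.1.2.2, be_apply, if_neg h]
  · rw [be_inv, Equiv.Perm.mul_apply, Equiv.Perm.mul_apply, be_pt, fix_pt hv.1 hv.2, be_pt]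
    simp

/-- The site starts with `m` zeros followed by `-1`. -/
def Blk (m : ℕ) (w : Om) : Prop := (∀ i < m, co w i = 0) ∧ co w m = -1

/-- The first nonzero coordinate is positive and among the first `m + 1`. -/
def Ab (m : ℕ) (w : Om) : Prop := ∃ n ≤ m, (∀ i < n, co w i = 0) ∧ 0 < co w n

open Classical in
/-- Shift coordinate `m + 1` of the sites in `Blk m`, for the `m` selected by `P`. -/
noncomputable def rho (P : ℕ → Prop) (k : ℤ) (w : Om) : Om :=
  mk (fun n => Nat.casesOn n (co w 0) fun m => co w (m + 1) + if Blk m w ∧ P m then k else 0) (by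
    refine ((co_fin w).union ((co_fin w).image Nat.succ)).subset ?_
    intro n hn
    cases n with
    | zero => exact Or.inl hn
    | succ m =>
      by_cases h : Blk m w ∧ P m
      · exact Or.inr ⟨m, by simp [h.1.2], rfl⟩
      · simp only [Function.mem_support, h, if_false, add_zero] at hn
        exact Or.inl hn)

theorem co_rho_zero (P : ℕ → Prop) (k : ℤ) (w : Om) : co (rho P k w) 0 = co w 0 := rfl

open Classical in
theorem co_rho_succ (P : ℕ → Prop) (k : ℤ) (w : Om) (m : ℕ) :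
    co (rho P k w) (m + 1) = co w (m + 1) + if Blk m w ∧ P m then k else 0 := rfl

theorem co_rho_of (P : ℕ → Prop) (k : ℤ) (w : Om) (n : ℕ) (h : ∀ m < n, ¬ Blk m w) :
    co (rho P k w) n = co w n := by
  cases n with
  | zero => rfl
  | succ m => rw [co_rho_succ, if_neg (fun h' => h m (by omega) h'.1), add_zero]

theorem Blk.not_lt {m m' : ℕ} {w : Om} (h : Blk m w) (hm : m' < m) : ¬ Blk m' w := fun h' => by
  have := h.1 m' hm
  rw [h'.2] at this
  omega

theorem Blk.rho {m : ℕ} {w : Om} (h : Blk m w) (P : ℕ → Prop) (k : ℤ) : Blk m (rho P k w) := by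
  refine ⟨fun i hi => ?_, ?_⟩
  · rw [co_rho_of _ _ _ _ fun m' hm => h.not_lt (by omega), h.1 i hi]
  · rw [co_rho_of _ _ _ _ fun m' hm => h.not_lt hm, h.2]

theorem blk_rho {m : ℕ} {w : Om} (P : ℕ → Prop) (k : ℤ) : Blk m (rho P k w) ↔ Blk m w := by
  refine ⟨fun h => ?_, fun h => h.rho P k⟩
  have key : ∀ m' < m, ¬ Blk m' w := fun m' hm h' => h.not_lt hm (h'.rho P k)
  refine ⟨fun i hi => ?_, ?_⟩
  · rw [← co_rho_of P k w i fun m' hm => key m' (by omega), h.1 i hi]
  · rw [← co_rho_of P k w m key, h.2]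

theorem rho_rho (P : ℕ → Prop) (k k' : ℤ) (w : Om) :
    rho P k (rho P k' w) = rho P (k' + k) w := by
  classical
  refine Om.ext' fun n => ?_
  cases n with
  | zero => rfl
  | succ m =>
    simp only [co_rho_succ, blk_rho]
    split_ifs <;> omega

theorem rho_zero (P : ℕ → Prop) (w : Om) : rho P 0 w = w := by
  refine Om.ext' fun n => ?_
  cases n with
  | zero => rfl
  | succ m => simp [co_rho_succ]

theorem rho_injective (P : ℕ → Prop) (k : ℤ) : Function.Injective (rho P k) := by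
  intro a b h
  have := congrArg (rho P (-k)) h
  simpa [rho_rho, rho_zero] using this

theorem rho_mono (P : ℕ → Prop) (k : ℤ) {a b : Om} (h : a ≤ b) : rho P k a ≤ rho P k b := by
  classical
  rcases h.eq_or_lt with rfl | h
  · exact le_rfl
  obtain ⟨n, h1, h2⟩ := lt_iff.1 h
  have key : ∀ i ≤ n, co (rho P k a) i - co a i = co (rho P k b) i - co b i := by
    intro i hi
    cases i with
    | zero => simp [co_rho_zero]
    | succ m =>
      have e : Blk m a ↔ Blk m b := by
        unfold Blk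
        rw [h1 m (by omega)]
        exact and_congr_left fun _ => forall_congr' fun j => imp_congr_right fun hj => by
          rw [h1 j (by omega)]
      simp only [co_rho_succ, e]
      omega
  refine le_of_lt (lt_iff.2 ⟨n, fun j hj => ?_, ?_⟩)
  · have := key j hj.le
    have := h1 j hj
    omega
  · have := key n le_rfl
    omega

theorem Blk.lt_o {m : ℕ} {w : Om} (h : Blk m w) : w < o :=
  lt_iff.2 ⟨m, fun j hj => by simp [h.1 j hj], by simp [h.2]⟩

theorem Ab.o_lt {m : ℕ} {w : Om} (h : Ab m w) : o < w := by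
  obtain ⟨n, -, h1, h2⟩ := h
  exact lt_iff.2 ⟨n, fun j hj => by simp [h1 j hj], by simpa using h2⟩

theorem rho_of_ge (P : ℕ → Prop) (k : ℤ) {w : Om} (h : o ≤ w) : rho P k w = w :=
  Om.ext' fun n => co_rho_of P k w n fun _ _ h' => absurd h'.lt_o (not_lt.2 h)

/-- The levels of the spine above which a configuration vanishes. -/
def Pf (f : X) (m : ℕ) : Prop := ∀ w, Ab m w → f w = 0

theorem Pf_congr {f f' : X} (h : ∀ w, o < w → (f w = 0 ↔ f' w = 0)) : Pf f = Pf f' := by
  funext m
  exact propext (forall_congr' fun w => imp_congr_right fun hw => h w hw.o_lt)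

/-- The underlying map of the spinal permutation. -/
noncomputable def sp' (k : ℤ) (f : X) : X := pull (rho (Pf f) k) (rho_injective _ _) f

theorem Pf_sp' (k : ℤ) (f : X) : Pf (sp' k f) = Pf f :=
  Pf_congr fun w hw => by rw [sp', pull_apply, rho_of_ge _ _ hw.le]

theorem sp'_sp' (k : ℤ) (f : X) : sp' (-k) (sp' k f) = f := by
  ext w
  rw [sp', pull_apply, Pf_sp', sp', pull_apply, rho_rho]
  simp [rho_zero]

/-- The spinal permutation. -/
noncomputable def sp (k : ℤ) : Equiv.Perm X where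
  toFun := sp' k
  invFun := sp' (-k)
  left_inv := sp'_sp' k
  right_inv f := by simpa using sp'_sp' (-k) f

theorem sp_apply (k : ℤ) (f : X) (w : Om) : sp k f w = f (rho (Pf f) k w) := rfl

theorem Pf_sp (k : ℤ) (f : X) : Pf (sp k f) = Pf f := Pf_sp' k f

theorem sp_inv (k : ℤ) : (sp k)⁻¹ = sp (-k) := by ext f w; rfl

theorem sp_conj (k : ℤ) (u : Equiv.Perm X) (hu : u ∈ U) : sp k * u * (sp k)⁻¹ ∈ U := by
  have hP : ∀ u ∈ U, ∀ f, Pf (u (sp (-k) f)) = Pf f := fun u hu f => by
    rw [← Pf_sp (-k) f]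
    exact Pf_congr fun w _ => hu.2.2 _ _
  refine conj_mem_U (A := (· ∈ U)) (fun u hu => U.inv_mem hu) ?_ ?_ u hu
  · intro u hu w f f' H
    simp only [Equiv.Perm.mul_apply, sp_inv]
    rw [sp_apply, sp_apply, hP u hu, hP u hu]
    rcases le_total w o with h | h
    · have e : Pf f = Pf f' := Pf_congr fun v hv => by rw [H v (h.trans hv.le)]
      rw [← e]
      refine hu.1 _ _ _ fun w' hw' => ?_
      rw [sp_apply, sp_apply, ← e]
      refine H _ ?_
      simpa [rho_rho, rho_zero] using rho_mono (Pf f) (-k) hw'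
    · rw [rho_of_ge _ _ h, rho_of_ge _ _ h]
      refine hu.1 _ _ _ fun w' hw' => ?_
      rw [sp_apply, sp_apply, rho_of_ge _ _ (h.trans hw'), rho_of_ge _ _ (h.trans hw')]
      exact H _ hw'
  · intro u hu f w
    simp only [Equiv.Perm.mul_apply, sp_inv]
    rw [sp_apply, hP u hu, hu.2.2, sp_apply, rho_rho]
    simp [rho_zero]

theorem sp_pt (k : ℤ) (a : ZMod 3) : sp k (pt a) = pt a := by
  ext w
  rw [sp_apply]
  by_cases h : w = o
  · subst h; rw [rho_of_ge _ _ le_rfl]
  · have : rho (Pf (pt a)) k w ≠ o := fun e => h (rho_injective (Pf (pt a)) k (by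
      rw [e, rho_of_ge _ _ le_rfl]))
    rw [pt, Finsupp.single_eq_of_ne h] at *
    exact Finsupp.single_eq_of_ne this

theorem Vp.conj_sp {v : Equiv.Perm X} (hv : Vp v) (k : ℤ) : Vp (sp k * v * (sp k)⁻¹) := by
  refine ⟨sp_conj k v hv.1, ?_⟩
  rw [sp_inv, Equiv.Perm.mul_apply, Equiv.Perm.mul_apply, sp_pt, hv.2, sp_pt]

theorem Blk_zero (l : ℤ) (s : Om) : Blk 0 (c l s) ↔ l = -1 := by simp [Blk]

theorem Blk_succ (m : ℕ) (l : ℤ) (s : Om) : Blk (m + 1) (c l s) ↔ l = 0 ∧ Blk m s := by
  unfold Blk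
  rw [Nat.forall_lt_succ_left, and_assoc]
  rfl

theorem Ab_zero (l : ℤ) (s : Om) : Ab 0 (c l s) ↔ 0 < l := by simp [Ab]

theorem Ab_succ (m : ℕ) (l : ℤ) (s : Om) : Ab (m + 1) (c l s) ↔ 0 < l ∨ (l = 0 ∧ Ab m s) := by
  constructor
  · rintro ⟨n, hn, h1, h2⟩
    cases n with
    | zero => exact Or.inl h2
    | succ n =>
      exact Or.inr ⟨h1 0 (by omega), n, by omega, fun i hi => h1 (i + 1) (by omega), h2⟩
  · rintro (h | ⟨rfl, n, hn, h1, h2⟩)
    · exact ⟨0, by omega, by simp, h⟩
    · refine ⟨n + 1, by omega, fun i hi => ?_, h2⟩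
      cases i with
      | zero => rfl
      | succ i => exact h1 i (by omega)

theorem Pf_zero (f : X) : Pf f 0 ↔ van 0 f := by
  constructor
  · intro h l hl
    ext s
    exact h _ ((Ab_zero l s).2 hl)
  · intro h w hw
    obtain ⟨l, s, rfl⟩ := c_cases w
    exact congrArg (· s) (h l ((Ab_zero l s).1 hw))

theorem Pf_succ (f : X) (m : ℕ) : Pf f (m + 1) ↔ van 0 f ∧ Pf (blk f 0) m := by
  constructor
  · intro h
    refine ⟨fun l hl => ?_, fun s hs => h _ ((Ab_succ m 0 s).2 (Or.inr ⟨rfl, hs⟩))⟩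
    ext s
    exact h _ ((Ab_succ m l s).2 (Or.inl hl))
  · rintro ⟨h1, h2⟩ w hw
    obtain ⟨l, s, rfl⟩ := c_cases w
    rcases (Ab_succ m l s).1 hw with h | ⟨rfl, h⟩
    · exact congrArg (· s) (h1 l h)
    · exact h2 s h

open Classical in
theorem blk_sp (k : ℤ) (f : X) (l : ℤ) :
    blk (sp k f) l = if van 0 f ∧ l = 0 then sp k (blk f 0)
      else if van 0 f ∧ l = -1 then t k (blk f (-1)) else blk f l := by
  ext s
  rw [blk_apply, sp_apply]
  split_ifs with h1 h2
  · rw [sp_apply, blk_apply, h1.2]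
    congr 1
    refine Om.ext' fun n => ?_
    rcases n with _ | _ | m
    · rfl
    · simp [co_rho_succ, co_rho_zero, Blk_zero]
    · simp [co_rho_succ, Blk_succ, Pf_succ, h1.1]
  · rw [t_apply, blk_apply, h2.2]
    congr 1
    obtain ⟨l', s', rfl⟩ := c_cases s
    refine Om.ext' fun n => ?_
    rcases n with _ | _ | m
    · rfl
    · simp [co_rho_succ, Blk_zero, Pf_zero, h2.1]
    · simp [co_rho_succ, Blk_succ]
  · rw [blk_apply]
    congr 1
    refine Om.ext' fun n => ?_
    rcases n with _ | _ | m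
    · rfl
    · rw [co_rho_succ, if_neg, add_zero]
      rw [Blk_zero, Pf_zero]
      exact fun h => h2 h.symm
    · rw [co_rho_succ, if_neg, add_zero]
      rw [Blk_succ, Pf_succ]
      exact fun h => h1 ⟨h.2.1, h.1.1⟩

end Pool.Agent.Lib.MP_4e651d_al
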