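import Pool.Agent.Lib.MP_4e651d_al.Gens

/-!
The group and its topology.
-/

set_option autoImplicit false

open Set Filter Topology
open scoped Pointwise

namespace Pool.Agent.Lib.MP_4e651d_al

/-- Membership in the group. -/
inductive InG : Equiv.Perm X → Prop
  | u {g : Equiv.Perm X} : g ∈ U → InG g
  | be : InG be
  | t (k : ℤ) : InG (t k)
  | sp (k : ℤ) : InG (sp k)
  | io {g : Equiv.Perm X} : InG g → InG (io g)
  | mul {g h : Equiv.Perm X} : InG g → InG h → InG (g * h)

theorem InG.one : InG 1 := InG.u U.one_mem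

theorem InG.inv {g : Equiv.Perm X} (h : InG g) : InG g⁻¹ := by
  induction h with
  | u h => exact InG.u (U.inv_mem h)
  | be => rw [be_inv]; exact InG.be
  | t k => rw [t_inv]; exact InG.t _
  | sp k => rw [sp_inv]; exact InG.sp _
  | io _ ih => rw [← map_inv]; exact InG.io ih
  | mul _ _ ih1 ih2 => rw [mul_inv_rev]; exact InG.mul ih2 ih1

theorem InG.comm {g : Equiv.Perm X} (h : InG g) : Comm g := by
  induction h with
  | u h => exact ⟨∅, fun u hu _ => U.mul_mem (U.mul_mem h hu) (U.inv_mem h)⟩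
  | be => exact ⟨{pt 1}, fun u hu H => (Vp.conj_be ⟨hu, H _ (by simp)⟩).1⟩
  | t k => exact ⟨∅, fun u hu _ => t_conj k u hu⟩
  | sp k => exact ⟨∅, fun u hu _ => sp_conj k u hu⟩
  | io _ ih => exact ih.io
  | mul _ _ ih1 ih2 => exact ih1.mul ih2

/-- The group as a subgroup of the permutations of the configurations. -/
def GG : Subgroup (Equiv.Perm X) where
  carrier := {g | InG g}
  one_mem' := InG.one
  mul_mem' := InG.mul
  inv_mem' := InG.inv

/-- The group. -/
abbrev G : Type := GG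

/-- Basic open subgroups. -/
def VS (S : Finset X) : Subgroup G where
  carrier := {g | g.1 ∈ U ∧ ∀ f ∈ S, g.1 f = f}
  one_mem' := ⟨U.one_mem, fun _ _ => rfl⟩
  mul_mem' := by
    rintro g h ⟨g1, g2⟩ ⟨h1, h2⟩
    refine ⟨U.mul_mem g1 h1, fun f hf => ?_⟩
    rw [Subgroup.coe_mul, Equiv.Perm.mul_apply, h2 f hf, g2 f hf]
  inv_mem' := by
    rintro g ⟨g1, g2⟩
    exact ⟨U.inv_mem g1, fun f hf => fix_inv (g2 f hf)⟩

theorem mem_VS {S : Finset X} {g : G} : g ∈ VS S ↔ g.1 ∈ U ∧ ∀ f ∈ S, g.1 f = f := Iff.rfl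

theorem VS_anti {S T : Finset X} (h : S ⊆ T) : VS T ≤ VS S :=
  fun _ hg => ⟨hg.1, fun f hf => hg.2 f (h hf)⟩

/-- The neighbourhood basis at the identity. -/
@[reducible] def basis : GroupFilterBasis G where
  sets := range fun S => (VS S : Set G)
  nonempty := range_nonempty _
  inter_sets := by
    classical
    rintro _ _ ⟨S, rfl⟩ ⟨T, rfl⟩
    exact ⟨_, ⟨S ∪ T, rfl⟩, subset_inter (VS_anti Finset.subset_union_left)
      (VS_anti Finset.subset_union_right)⟩
  one' := by rintro _ ⟨S, rfl⟩; exact (VS S).one_mem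
  mul' := by
    rintro _ ⟨S, rfl⟩
    refine ⟨_, ⟨S, rfl⟩, ?_⟩
    rintro _ ⟨a, ha, b, hb, rfl⟩
    exact (VS S).mul_mem ha hb
  inv' := by
    rintro _ ⟨S, rfl⟩
    exact ⟨_, ⟨S, rfl⟩, fun a ha => (VS S).inv_mem ha⟩
  conj' := by
    classical
    rintro x _ ⟨S, rfl⟩
    obtain ⟨T, hT⟩ := InG.comm x.2
    refine ⟨_, ⟨T ∪ S.image (x.1⁻¹ ·), rfl⟩, fun a ha => ⟨?_, fun f hf => ?_⟩⟩
    · exact hT a ha.1 fun f hf => ha.2 f (Finset.mem_union_left _ hf)
    · change x.1 (a.1 (x.1⁻¹ f)) = f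
      rw [ha.2 _ (Finset.mem_union_right _ (Finset.mem_image_of_mem _ hf))]
      simp

instance : TopologicalSpace G := basis.topology

instance : IsTopologicalGroup G := basis.isTopologicalGroup

theorem hasBasis_one : (𝓝 (1 : G)).HasBasis (fun _ => True) fun S => (VS S : Set G) := by
  refine ⟨fun A => ?_⟩
  rw [basis.nhds_one_hasBasis.mem_iff]
  constructor
  · rintro ⟨_, ⟨S, rfl⟩, h⟩
    exact ⟨S, trivial, h⟩
  · rintro ⟨S, -, h⟩
    exact ⟨_, ⟨S, rfl⟩, h⟩

theorem isOpen_of_VS {O : Subgroup G} {S : Finset X} (h : VS S ≤ O) : IsOpen (O : Set G) :=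
  O.isOpen_of_mem_nhds (hasBasis_one.mem_iff.2 ⟨S, trivial, h⟩)

theorem exists_VS {W : Set G} (h : IsOpen W) (h1 : 1 ∈ W) : ∃ S, (VS S : Set G) ⊆ W := by
  obtain ⟨S, -, hS⟩ := hasBasis_one.mem_iff.1 (h.mem_nhds h1)
  exact ⟨S, hS⟩

instance : T2Space G := by
  rw [basis.t2Space_iff_sInter_subset rfl]
  intro g hg
  refine Subtype.ext (Equiv.ext fun f => ?_)
  exact (hg _ ⟨{f}, rfl⟩).2 f (by simp)

instance : NonarchimedeanGroup G where
  is_nonarchimedean A hA := by
    obtain ⟨S, -, hS⟩ := hasBasis_one.mem_iff.1 hA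
    exact ⟨⟨VS S, isOpen_of_VS le_rfl⟩, hS⟩

instance : TotallyDisconnectedSpace G := inferInstance

theorem finite_supp (A : Finset Om) : {y : X | y.support ⊆ A}.Finite := by
  classical
  refine (A.finsupp fun _ => (Finset.univ : Finset (ZMod 3))).finite_toSet.subset fun y hy => ?_
  simpa [Finset.mem_finsupp_iff] using hy

theorem Sup.support {g : X → X} (hg : Sup g) (f : X) : (g f).support ⊆ f.support := by
  intro w hw
  rw [Finsupp.mem_support_iff] at hw ⊢
  exact fun h => hw ((hg f w).2 h)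

theorem compact_U : IsCompact (VS ∅ : Set G) := by
  rw [isCompact_iff_ultrafilter_le_nhds]
  intro F hF
  have hU : ∀ᶠ g in (F : Filter G), g.1 ∈ U := by
    filter_upwards [le_principal_iff.1 hF] with g hg using hg.1
  have h1 : ∀ f : X, ∃ y, ∀ᶠ g in (F : Filter G), g.1 f = y := fun f => by
    obtain ⟨y, -, hy⟩ := (F.eventually_exists_mem_iff (P := fun y (g : G) => g.1 f = y)
      (finite_supp f.support)).1 (by
        filter_upwards [hU] with g hg using ⟨_, hg.2.2.support f, rfl⟩)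
    exact ⟨y, hy⟩
  have h2 : ∀ f : X, ∃ y, ∀ᶠ g in (F : Filter G), g.1⁻¹ f = y := fun f => by
    obtain ⟨y, -, hy⟩ := (F.eventually_exists_mem_iff (P := fun y (g : G) => g.1⁻¹ f = y)
      (finite_supp f.support)).1 (by
        filter_upwards [hU] with g hg using ⟨_, (U.inv_mem hg).2.2.support f, rfl⟩)
    exact ⟨y, hy⟩
  choose a ha using h1
  choose a' ha' using h2
  let x : Equiv.Perm X :=
    { toFun := a
      invFun := a'
      left_inv := fun f => by
        obtain ⟨g, e1, e2⟩ := ((ha f).and (ha' (a f))).exists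
        rw [← e2, ← e1]; simp
      right_inv := fun f => by
        obtain ⟨g, e1, e2⟩ := ((ha' f).and (ha (a' f))).exists
        rw [← e2, ← e1]; simp }
  have hx : x ∈ U := by
    refine ⟨fun w f f' H => ?_, fun w f f' H => ?_, fun f w => ?_⟩
    · obtain ⟨g, hg, e1, e2⟩ := (hU.and ((ha f).and (ha f'))).exists
      change a f w = a f' w
      rw [← e1, ← e2]; exact hg.1 w f f' H
    · obtain ⟨g, hg, e1, e2⟩ := (hU.and ((ha' f).and (ha' f'))).exists
      change a' f w = a' f' w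
      rw [← e1, ← e2]; exact hg.2.1 w f f' H
    · obtain ⟨g, hg, e1⟩ := (hU.and (ha f)).exists
      change a f w = 0 ↔ _
      rw [← e1]; exact hg.2.2 f w
  refine ⟨⟨x, InG.u hx⟩, ⟨hx, by simp⟩, ?_⟩
  rw [← nhds_translation_inv_mul, ← map_le_iff_le_comap, hasBasis_one.ge_iff]
  intro S _
  have : ∀ᶠ g in (F : Filter G), ∀ f ∈ S, g.1 f = a f := (eventually_all_finset S).2 fun f _ => ha f
  rw [mem_map]
  filter_upwards [hU, this] with g hg hS
  refine ⟨U.mul_mem (U.inv_mem hx) hg, fun f hf => ?_⟩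
  change x⁻¹ (g.1 f) = f
  rw [hS f hf]
  exact x.left_inv f

instance : LocallyCompactSpace G :=
  compact_U.locallyCompactSpace_of_mem_nhds_of_group (hasBasis_one.mem_of_mem trivial)

/-- The embedding into block zero, on the group. -/
noncomputable def ioG : G →* G where
  toFun g := ⟨io g.1, InG.io g.2⟩
  map_one' := Subtype.ext (map_one io)
  map_mul' g h := Subtype.ext (map_mul io g.1 h.1)

theorem ioG_continuous : Continuous ioG := by
  classical
  refine continuous_of_continuousAt_one ioG ?_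
  rw [ContinuousAt, map_one, hasBasis_one.tendsto_iff hasBasis_one]
  intro S _
  refine ⟨S.image (blk · 0), trivial, fun g hg => ⟨io_mem hg.1, fun f hf => ?_⟩⟩
  refine ext_blk fun l => ?_
  change blk (io g.1 f) l = _
  rw [blk_io]
  split_ifs with h
  · rw [hg.2 _ (Finset.mem_image_of_mem _ hf), h.2]
  · rfl

/-- The generators as elements of the group. -/
noncomputable def beG : G := ⟨be, InG.be⟩
/-- The shift as an element of the group. -/
noncomputable def tG (k : ℤ) : G := ⟨t k, InG.t k⟩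
/-- The spinal permutation as an element of the group. -/
noncomputable def spG (k : ℤ) : G := ⟨sp k, InG.sp k⟩

/-- An exhaustion by compact sets. -/
noncomputable def exh : ℕ → Set G
  | 0 => (VS ∅ : Set G) ∪ {beG}
  | n + 1 => exh n ∪ exh n * exh n ∪ ioG '' exh n ∪ {tG n, tG (-n), spG n, spG (-n)}

theorem exh_compact (n : ℕ) : IsCompact (exh n) := by
  induction n with
  | zero => exact compact_U.union isCompact_singleton
  | succ n ih =>
    exact ((ih.union (ih.mul ih)).union (ih.image ioG_continuous)).union (toFinite _).isCompact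

theorem exh_mono : Monotone exh := monotone_nat_of_le_succ fun _ _ h =>
  Or.inl (Or.inl (Or.inl h))

theorem exh_cover {g : Equiv.Perm X} (h : InG g) : ∃ n, (⟨g, h⟩ : G) ∈ exh n := by
  induction h with
  | u h => exact ⟨0, Or.inl ⟨h, by simp⟩⟩
  | be => exact ⟨0, Or.inr rfl⟩
  | t k =>
    obtain ⟨n, rfl | rfl⟩ := k.eq_nat_or_neg
    · exact ⟨n + 1, Or.inr (Or.inl rfl)⟩
    · exact ⟨n + 1, Or.inr (Or.inr (Or.inl rfl))⟩
  | sp k =>
    obtain ⟨n, rfl | rfl⟩ := k.eq_nat_or_neg
    · exact ⟨n + 1, Or.inr (Or.inr (Or.inr (Or.inl rfl)))⟩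
    · exact ⟨n + 1, Or.inr (Or.inr (Or.inr (Or.inr rfl)))⟩
  | io _ ih =>
    obtain ⟨n, hn⟩ := ih
    exact ⟨n + 1, Or.inl (Or.inr ⟨_, hn, rfl⟩)⟩
  | mul _ _ ih1 ih2 =>
    obtain ⟨n, hn⟩ := ih1
    obtain ⟨m, hm⟩ := ih2
    exact ⟨max n m + 1, Or.inl (Or.inl (Or.inr
      ⟨_, exh_mono (le_max_left _ _) hn, _, exh_mono (le_max_right _ _) hm, rfl⟩))⟩

instance : SigmaCompactSpace G :=
  ⟨exh, exh_compact, eq_univ_of_forall fun g => mem_iUnion.2 (exh_cover g.2)⟩

instance : SecondCountableTopology G := by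
  have h1 : (𝓝 (1 : G)).IsCountablyGenerated := hasBasis_one.isCountablyGenerated
  let _ := IsTopologicalGroup.rightUniformSpace G
  have h2 : (uniformity G).IsCountablyGenerated := comap.isCountablyGenerated _ _
  have h3 : TopologicalSpace.PseudoMetrizableSpace G := inferInstance
  infer_instance

end Pool.Agent.Lib.MP_4e651d_al
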