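import Mathlib

/-! Envelopes of compactly generated subgroups. -/

set_option autoImplicit false

open Set Topology
open scoped Pointwise

namespace Pool.Agent.Lib.MP_4e651d_al.H87

variable {G : Type*} [Group G] [TopologicalSpace G] [IsTopologicalGroup G]

theorem exists_compact_open [T2Space G] [LocallyCompactSpace G] [TotallyDisconnectedSpace G] :
    ∃ W : Subgroup G, IsOpen (W : Set G) ∧ IsCompact (W : Set G) := by
  obtain ⟨C, hCc, hC1⟩ := exists_compact_mem_nhds (1 : G)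
  obtain ⟨W, hWcl, h1W, hWsub⟩ := (loc_compact_Haus_tot_disc_of_zero_dim (H := G)).mem_nhds_iff.1 hC1
  have hWc : IsCompact W := hCc.of_isClosed_subset (IsClopen.isClosed hWcl) hWsub
  obtain ⟨V, hV1, hWV⟩ := compact_open_separated_mul_right hWc (IsClopen.isOpen hWcl) subset_rfl
  have hV' : V ∩ V⁻¹ ∈ 𝓝 (1 : G) := Filter.inter_mem hV1 (inv_mem_nhds_one G hV1)
  have ho : IsOpen (Subgroup.closure (V ∩ V⁻¹) : Set G) :=
    Subgroup.isOpen_of_mem_nhds _ (Filter.mem_of_superset hV' Subgroup.subset_closure)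
  refine ⟨_, ho, hWc.of_isClosed_subset (Subgroup.isClosed_of_isOpen _ ho) fun x hx => ?_⟩
  induction hx using Subgroup.closure_induction_right with
  | one => exact h1W
  | mul_right x _ y hy ih => exact hWV (mul_mem_mul ih hy.1)
  | mul_inv_cancel x _ y hy ih => exact hWV (mul_mem_mul ih hy.2)

theorem countable_compact_open (X : Type*) [TopologicalSpace X] [SecondCountableTopology X] :
    {C : Set X | IsCompact C ∧ IsOpen C}.Countable := by
  refine ((countable_ofPred_finite_subset (TopologicalSpace.countable_countableBasis X)).image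
    sUnion).mono fun C hC => ?_
  obtain ⟨T, h1, h2⟩ := (TopologicalSpace.isBasis_countableBasis X).open_eq_sUnion hC.2
  obtain ⟨F, f1, f2, f3⟩ := hC.1.elim_finite_subcover_image (b := T) (c := id)
    (fun t ht => TopologicalSpace.isOpen_of_mem_countableBasis (h1 ht))
    (by rw [h2, sUnion_eq_biUnion]; rfl)
  refine ⟨F, ⟨f2, f1.trans h1⟩, subset_antisymm (h2 ▸ sUnion_subset_sUnion f1) ?_⟩
  rwa [sUnion_eq_biUnion]

/-- Every open subgroup normalised by `S` contains an open subgroup normalised by a fixed compact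
open set `C` containing `S`. -/
theorem envelope {W : Subgroup G} (hWo : IsOpen (W : Set G)) (hWc : IsCompact (W : Set G))
    {S : Set G} (hS : IsCompact S) : ∃ C : Set G, IsCompact C ∧ IsOpen C ∧ S ⊆ C ∧
      ∀ O : Subgroup G, IsOpen (O : Set G) →
        (∀ k ∈ Subgroup.closure S, ∀ x ∈ O, k * x * k⁻¹ ∈ O) →
        ∃ O' : Subgroup G, IsOpen (O' : Set G) ∧ O' ≤ O ∧
          ∀ k ∈ Subgroup.closure C, ∀ x ∈ O', k * x * k⁻¹ ∈ O' := by
  have := QuotientGroup.discreteTopology hWo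
  let H : Subgroup G → Subgroup G := fun V => Subgroup.closure (S ∪ V)
  let A : Subgroup G → Set (G ⧸ W) := fun V =>
    QuotientGroup.mk '' (((H V : Set G) ∩ W) * (S ∪ S⁻¹))
  have Am : ∀ V V', V ≤ V' → A V ⊆ A V' := fun V V' h => image_mono (mul_subset_mul_right
    (inter_subset_inter_left _ (Subgroup.closure_mono (union_subset_union_right _ h))))
  have Af : ∀ V, (A V).Finite := fun V =>
    ((hWc.mul (hS.union hS.inv)).image QuotientGroup.continuous_mk).finite_of_discrete.subset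
      (image_mono (mul_subset_mul_right inter_subset_right))
  obtain ⟨V₀, ⟨v1, v2⟩, v3⟩ := exists_minimalFor_of_wellFoundedLT
    (fun V : Subgroup G => IsOpen (V : Set G) ∧ V ≤ W) (fun V => (A V).ncard) ⟨W, hWo, le_rfl⟩
  have vc : IsCompact (V₀ : Set G) := hWc.of_isClosed_subset (V₀.isClosed_of_isOpen v1) v2
  have hSH : ∀ V, ∀ s ∈ S ∪ S⁻¹, s ∈ H V := fun V s hs => hs.elim
    (fun h => Subgroup.subset_closure (Or.inl h))
    fun h => (H V).inv_mem_iff.1 (Subgroup.subset_closure (Or.inl h))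
  have hVH : ∀ V, V ≤ H V := fun V s hs => Subgroup.subset_closure (Or.inr hs)
  refine ⟨insert 1 S * V₀, (hS.insert 1).mul vc, v1.mul_left,
    fun s hs => ⟨s, Or.inr hs, 1, V₀.one_mem, mul_one s⟩, fun O hO hn => ?_⟩
  have e : A (O ⊓ V₀) = A V₀ := eq_of_subset_of_ncard_le (Am _ _ inf_le_right)
    (v3 ⟨hO.inter v1, inf_le_right.trans v2⟩ (ncard_le_ncard (Am _ _ inf_le_right) (Af _))) (Af _)
  have key : ∀ g ∈ H V₀, ∀ u ∈ H V₀, u ∈ W → ∃ h ∈ H (O ⊓ V₀), ∃ w ∈ W, u * g = h * w := by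
    have step : ∀ s ∈ S ∪ S⁻¹, ∀ g, (∀ u ∈ H V₀, u ∈ W → ∃ h ∈ H (O ⊓ V₀), ∃ w ∈ W, u * g = h * w) →
        ∀ u ∈ H V₀, u ∈ W → ∃ h ∈ H (O ⊓ V₀), ∃ w ∈ W, u * (s * g) = h * w := by
      intro s hs g ih u hu hw
      obtain ⟨_, ⟨h, h1, s', h2, rfl⟩, h3⟩ : ((u * s : G) : G ⧸ W) ∈ A (O ⊓ V₀) :=
        e ▸ ⟨_, mul_mem_mul ⟨hu, hw⟩ hs, rfl⟩
      have h4 : h ∈ H V₀ := Subgroup.closure_mono (union_subset_union_right _ inf_le_right) h1.1
      obtain ⟨h', h5, w, h6, h7⟩ := ih _ ((H V₀).mul_mem ((H V₀).inv_mem ((H V₀).mul_mem h4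
        (hSH _ _ h2))) ((H V₀).mul_mem hu (hSH _ _ hs))) (QuotientGroup.eq.1 h3)
      refine ⟨h * s' * h', (H _).mul_mem ((H _).mul_mem h1.1 (hSH _ _ h2)) h5, w, h6, ?_⟩
      rw [mul_assoc _ h', ← h7]
      group
    intro g hg
    induction hg using Subgroup.closure_induction_left with
    | one => exact fun u _ hw => ⟨1, one_mem _, u, hw, by simp⟩
    | mul_left x hx y _ ih =>
      rcases hx with hx | hx
      · exact step x (Or.inl hx) y ih
      · exact fun u hu hw => mul_assoc u x y ▸ ih _ (mul_mem hu (hVH _ hx)) (mul_mem hw (v2 hx))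
    | inv_mul_cancel x hx y _ ih =>
      rcases hx with hx | hx
      · exact step x⁻¹ (Or.inr (by simpa using hx)) y ih
      · exact fun u hu hw => mul_assoc u x⁻¹ y ▸ ih _ (mul_mem hu (inv_mem (hVH _ hx)))
          (mul_mem hw (inv_mem (v2 hx)))
  have hn' : ∀ h ∈ H (O ⊓ V₀), ∀ x ∈ O, h * x * h⁻¹ ∈ O := by
    intro h hh
    induction hh using Subgroup.closure_induction_left with
    | one => simp
    | mul_left k hk y _ ih =>
      intro x hx
      rw [show k * y * x * (k * y)⁻¹ = k * (y * x * y⁻¹) * k⁻¹ by group]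
      exact hk.elim (fun c => hn k (Subgroup.subset_closure c) _ (ih x hx))
        fun c => mul_mem (mul_mem c.1 (ih x hx)) (inv_mem c.1)
    | inv_mul_cancel k hk y _ ih =>
      intro x hx
      rw [show k⁻¹ * y * x * (k⁻¹ * y)⁻¹ = k⁻¹ * (y * x * y⁻¹) * k⁻¹⁻¹ by group]
      exact hk.elim (fun c => hn k⁻¹ (inv_mem (Subgroup.subset_closure c)) _ (ih x hx))
        fun c => mul_mem (mul_mem (inv_mem c.1) (ih x hx)) (inv_mem (inv_mem c.1))
  let O' : Subgroup G :=
    { carrier := {x | ∀ g ∈ H V₀, g * x * g⁻¹ ∈ O}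
      one_mem' := fun g _ => by simp
      mul_mem' := fun {x y} hx hy g hg => by
        rw [show g * (x * y) * g⁻¹ = g * x * g⁻¹ * (g * y * g⁻¹) by group]
        exact mul_mem (hx g hg) (hy g hg)
      inv_mem' := fun {x} hx g hg => by
        rw [show g * x⁻¹ * g⁻¹ = (g * x * g⁻¹)⁻¹ by group]
        exact inv_mem (hx g hg) }
  refine ⟨O', O'.isOpen_of_mem_nhds (g := 1) ?_, fun x hx => by simpa using hx 1 (one_mem _),
    fun k hk x hx g hg => ?_⟩
  · have h1 : ∀ᶠ x in 𝓝 (1 : G), ∀ w ∈ (W : Set G), w * x * w⁻¹ ∈ O :=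
      hWc.eventually_forall_of_forall_eventually fun w _ =>
        (show Continuous fun p : G × G => p.2 * p.1 * p.2⁻¹ by fun_prop).continuousAt.eventually_mem
          (hO.mem_nhds (by simp))
    filter_upwards [h1] with x hx g hg
    obtain ⟨h, h2, w, h3, h4⟩ := key g hg 1 (one_mem _) (one_mem _)
    rw [one_mul] at h4
    rw [h4, show h * w * x * (h * w)⁻¹ = h * (w * x * w⁻¹) * h⁻¹ by group]
    exact hn' h h2 _ (hx w h3)
  · have h1 : k ∈ H V₀ := by
      refine (Subgroup.closure_le _).2 ?_ hk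
      rintro _ ⟨s, hs, v, hv, rfl⟩
      refine mul_mem ?_ (hVH _ hv)
      rcases hs with rfl | hs
      exacts [one_mem _, hSH _ _ (Or.inl hs)]
    rw [show g * (k * x * k⁻¹) * g⁻¹ = g * k * x * (g * k)⁻¹ by group]
    exact hx _ (mul_mem hg h1)

end Pool.Agent.Lib.MP_4e651d_al.H87
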