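import Pool.Agent.Lib.MP_4e651d_al.Sections

/-!
No nontrivial compactly generated subgroup lies in its own discrete residual.
-/

set_option autoImplicit false

open Set Filter Topology

namespace Pool.Agent.Lib.MP_4e651d_al

/-- `K` lies in every open subgroup it normalises. -/
def SelfRes (K : Subgroup G) : Prop :=
  ∀ O : Subgroup G, IsOpen (O : Set G) → (∀ k ∈ K, ∀ x ∈ O, k * x * k⁻¹ ∈ O) → K ≤ O

/-- The level preserving elements. -/
def W : Subgroup G where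
  carrier := {g | Str g.1 0}
  one_mem' := str_one
  mul_mem' := fun {a b} ha hb => by simpa using Str.mul ha hb
  inv_mem' := fun {a} ha => by simpa using Str.inv a.2 ha

theorem mem_W {g : G} : g ∈ W ↔ Str g.1 0 := Iff.rfl

theorem W_ag {g : G} (hg : g ∈ W) {l : ℤ} {f f' : X} (h : ag l f f') : ag l (g.1 f) (g.1 f') := by
  simpa using Str.ag hg h

theorem SelfRes.le_W {K : Subgroup G} (hK : SelfRes K) : K ≤ W := by
  refine hK W (isOpen_of_VS (S := ∅) fun g hg => str_U hg.1) fun k _ x hx => ?_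
  obtain ⟨n, -, hn, -⟩ := InG.str k.2
  have := (hn.mul hx).mul (hn.inv k.2)
  simpa [mem_W] using this

/-- Supports are preserved from level `m` on. -/
def SA (m : ℤ) : Subgroup G where
  carrier := {g | ∀ f l s, m ≤ l → (blk (g.1 f) l s = 0 ↔ blk f l s = 0)}
  one_mem' _ _ _ _ := Iff.rfl
  mul_mem' := fun {a b} ha hb f l s hl => (ha _ l s hl).trans (hb f l s hl)
  inv_mem' := fun {a} ha f l s hl => by
    rw [← ha _ l s hl]
    simp

theorem SelfRes.fix {K : Subgroup G} (hK : SelfRes K) {m : ℤ} (hm : K ≤ SA m) :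
    ∀ k ∈ K, ∀ f, ag m (k.1 f) f := by
  classical
  intro k hk f
  let N : Subgroup G :=
    { carrier := {g | g ∈ W ∧ ∀ y : X, y.support ⊆ f.support → ag m (g.1 y) y}
      one_mem' := ⟨W.one_mem, fun _ _ => ag.refl _ _⟩
      mul_mem' := fun {a b} ha hb => ⟨W.mul_mem ha.1 hb.1, fun y hy =>
        (W_ag ha.1 (hb.2 y hy)).trans (ha.2 y hy)⟩
      inv_mem' := fun {a} ha => ⟨W.inv_mem ha.1, fun y hy => by
        simpa using (W_ag (W.inv_mem ha.1) (ha.2 y hy)).symm⟩ }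
  have hN : IsOpen (N : Set G) := by
    refine isOpen_of_VS (S := (finite_supp f.support).toFinset) fun g hg => ⟨str_U hg.1, ?_⟩
    intro y hy
    rw [hg.2 y (by simpa using hy)]
    exact ag.refl _ _
  refine (hK N hN (fun k hk g hg => ⟨?_, fun y hy => ?_⟩) hk).2 f subset_rfl
  · exact W.mul_mem (W.mul_mem (hK.le_W hk) hg.1) (W.inv_mem (hK.le_W hk))
  · let z : X := (k.1⁻¹ y).filter fun w => m ≤ co w 0
    have h1 : ag m (k.1⁻¹ y) z := fun l hl => by
      ext s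
      simp [z, blk_apply, hl]
    have h2 : z.support ⊆ f.support := by
      intro w hw
      obtain ⟨l, s, rfl⟩ := c_cases w
      simp only [z, Finsupp.support_filter, Finset.mem_filter, co_c_zero,
        Finsupp.mem_support_iff] at hw
      refine hy (Finsupp.mem_support_iff.2 fun e => hw.1 ?_)
      exact (hm (K.inv_mem hk) y l s hw.2).2 e
    have h3 : ag m (g.1 (k.1⁻¹ y)) (k.1⁻¹ y) := ((W_ag hg.1 h1).trans (hg.2 z h2)).trans h1.symm
    simpa using W_ag (hK.le_W hk) h3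

theorem SelfRes.eq_bot {K : Subgroup G} (hK : SelfRes K) (h : K ≤ VS ∅) : K = ⊥ := by
  rw [eq_bot_iff]
  intro k hk
  refine Subtype.ext (Equiv.ext fun f => ext_blk fun l => ?_)
  exact hK.fix (m := l) (fun g hg f l s _ => (h hg).1.2.2 _ _) k hk f l le_rfl

/-- `g` fixes the upper part of `h` and has section `s` there. -/
def Rel (m : ℤ) (h : X) (g s : G) : Prop :=
  g ∈ W ∧ ag (m + 1) (g.1 h) h ∧ Sec g.1 0 m h s.1

theorem Rel.one (m : ℤ) (h : X) : Rel m h 1 1 := ⟨W.one_mem, ag.refl _ _, sec_one m h⟩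

theorem Rel.unique {m : ℤ} {h : X} {g s s' : G} (h1 : Rel m h g s) (h2 : Rel m h g s') : s = s' :=
  Subtype.ext (h1.2.2.unique h2.2.2)

theorem Rel.exists {m : ℤ} {h : X} {g : G} (hg : g ∈ W) (h1 : ag (m + 1) (g.1 h) h) :
    ∃ s, Rel m h g s := by
  obtain ⟨s, hs, e⟩ := hg m h
  exact ⟨⟨s, hs⟩, hg, h1, e⟩

theorem Rel.mul {m : ℤ} {h : X} {g g' s s' : G} (h1 : Rel m h g s) (h2 : Rel m h g' s') :
    Rel m h (g * g') (s * s') := by
  refine ⟨W.mul_mem h1.1 h2.1, (W_ag h1.1 h2.2.1).trans h1.2.1, ?_⟩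
  have : Sec g.1 0 (m + 0) (g'.1 h) s.1 := by
    rw [add_zero]
    exact fun f hf => h1.2.2 f (hf.trans h2.2.1)
  simpa using this.mul h2.1 h2.2.2

theorem Rel.inv {m : ℤ} {h : X} {g s : G} (h1 : Rel m h g s) : Rel m h g⁻¹ s⁻¹ := by
  obtain ⟨s', hs'⟩ := Rel.exists (m := m) (h := h) (W.inv_mem h1.1) (by
    simpa using (W_ag (W.inv_mem h1.1) h1.2.1).symm)
  have := h1.mul hs'
  rw [mul_inv_cancel] at this
  rw [← eq_inv_of_mul_eq_one_right (this.unique (Rel.one m h))]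
  exact hs'

theorem Rel.mem_U {m : ℤ} {h : X} {g s : G} (h1 : Rel m h g s) (hg : g.1 ∈ U) : s.1 ∈ U := by
  obtain ⟨s', hs', e⟩ := sec_U hg m h
  rwa [h1.2.2.unique e]

/-- The sections of a subgroup. -/
def down (m : ℤ) (h : X) (K : Subgroup G) : Subgroup G where
  carrier := {s | ∃ g ∈ K, Rel m h g s}
  one_mem' := ⟨1, K.one_mem, Rel.one m h⟩
  mul_mem' := fun ⟨_, a1, a2⟩ ⟨_, b1, b2⟩ => ⟨_, K.mul_mem a1 b1, a2.mul b2⟩
  inv_mem' := fun ⟨_, a1, a2⟩ => ⟨_, K.inv_mem a1, a2.inv⟩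

/-- The elements with section in a subgroup. -/
def up (m : ℤ) (h : X) (O : Subgroup G) : Subgroup G where
  carrier := {g | ∃ s ∈ O, Rel m h g s}
  one_mem' := ⟨1, O.one_mem, Rel.one m h⟩
  mul_mem' := fun ⟨_, a1, a2⟩ ⟨_, b1, b2⟩ => ⟨_, O.mul_mem a1 b1, a2.mul b2⟩
  inv_mem' := fun ⟨_, a1, a2⟩ => ⟨_, O.inv_mem a1, a2.inv⟩

theorem isOpen_up (m : ℤ) (h : X) {O : Subgroup G} (hO : IsOpen (O : Set G)) :
    IsOpen (up m h O : Set G) := by
  classical
  obtain ⟨S, hS⟩ := exists_VS hO O.one_mem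
  refine isOpen_of_VS (S := insert h (S.image (upd h m ·))) fun g hg => ?_
  obtain ⟨s, hs⟩ := Rel.exists (m := m) (h := h) (g := g) (str_U hg.1) (by
    rw [hg.2 h (by simp)]; exact ag.refl _ _)
  refine ⟨s, hS ⟨hs.mem_U hg.1, fun x hx => ?_⟩, hs⟩
  rw [hs.2.2.apply, hg.2 _ (Finset.mem_insert_of_mem (Finset.mem_image_of_mem _ hx)), add_zero,
    blk_upd, if_pos rfl]

/-- A nontrivial self-residual subgroup with a finite generating family modulo `U`. -/
def St {I : Type} (K : Subgroup G) (j : I → G) : Prop :=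
  K ≠ ⊥ ∧ SelfRes K ∧ (∀ i, j i ∈ K) ∧
    K ≤ Subgroup.closure (range j ∪ ((K : Set G) ∩ VS ∅))

theorem St.le {I : Type} {K : Subgroup G} {j : I → G} (h : St K j) {H : Subgroup G}
    (h1 : ∀ i, j i ∈ H) (h2 : ∀ g ∈ K, g.1 ∈ U → g ∈ H) : K ≤ H := by
  refine h.2.2.2.trans ((Subgroup.closure_le _).2 ?_)
  rintro g (⟨i, rfl⟩ | hg)
  · exact h1 i
  · exact h2 g hg.1 hg.2.1

theorem St.step {I : Type} [Finite I] {K : Subgroup G} {j : I → G} (h : St K j) :
    ∃ (K' : Subgroup G) (j' : I → G), St K' j' ∧ ∀ i, R (j' i).1 (j i).1 := by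
  have hW := h.2.1.le_W
  have hne : ∃ m, ∀ k ∈ K, ∀ f, ag m (k.1 f) f := by
    have : ∀ i, ∃ m, ∀ l x s, m < l → Sec (j i).1 0 l x s → s ∈ U := fun i => by
      obtain ⟨k, m, h1, h2⟩ := InG.str (j i).2
      exact ⟨m, h1.unique (hW (h.2.2.1 i)) ▸ h2⟩
    choose μ hμ using this
    obtain ⟨m, hm⟩ := Finite.exists_le μ
    refine ⟨m + 1, h.2.1.fix (h.le (fun i f l s hl => ?_) fun g _ hg f l s _ => hg.2.2 _ _)⟩
    obtain ⟨s', -, e⟩ := hW (h.2.2.1 i) l f
    have := e f (ag.refl _ _)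
    rw [add_zero] at this
    rw [this]
    exact (hμ i l f s' (by have := hm i; omega) e).2.2 _ _
  have hbd : ∃ b : ℤ, ∀ m, (∀ k ∈ K, ∀ f, ag m (k.1 f) f) → b ≤ m := by
    by_contra hc
    push Not at hc
    refine h.1 (eq_bot_iff.2 fun k hk => Subtype.ext (Equiv.ext fun f => ext_blk fun l => ?_))
    obtain ⟨m, h1, h2⟩ := hc l
    exact h1 k hk f l h2.le
  obtain ⟨m', h1, h2⟩ := Int.exists_least_of_bdd hbd hne
  obtain ⟨m, rfl⟩ : ∃ m, m' = m + 1 := ⟨m' - 1, by omega⟩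
  have h3 : ¬ ∀ k ∈ K, ∀ f, ag m (k.1 f) f := fun hc => by have := h2 m hc; omega
  push Not at h3
  obtain ⟨k, hk, f, hkf⟩ := h3
  have hrel : ∀ g ∈ K, ∃ s, Rel m f g s := fun g hg => Rel.exists (hW hg) (h1 g hg f)
  choose j' hj' using fun i => hrel (j i) (h.2.2.1 i)
  refine ⟨down m f K, j', ⟨fun hb => hkf fun l hl => ?_, fun O hO hn => ?_,
    fun i => ⟨_, h.2.2.1 i, hj' i⟩, ?_⟩, fun i => ⟨0, (hj' i).1, _, _, (hj' i).2.2⟩⟩
  · rcases hl.eq_or_lt with rfl | hl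
    · obtain ⟨s, hs⟩ := hrel k hk
      have : s ∈ down m f K := ⟨k, hk, hs⟩
      rw [hb, Subgroup.mem_bot] at this
      simpa [this] using hs.2.2 f (ag.refl _ _)
    · exact h1 k hk f l hl
  · have : K ≤ up m f O := by
      refine h.2.1 _ (isOpen_up m f hO) ?_
      rintro g hg x ⟨s, hs, e⟩
      obtain ⟨s', e'⟩ := hrel g hg
      exact ⟨_, hn s' ⟨g, hg, e'⟩ s hs, (e'.mul e).mul e'.inv⟩
    rintro s ⟨g, hg, e⟩
    obtain ⟨s', hs', e'⟩ := this hg
    rwa [e.unique e']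
  · have : K ≤ up m f (Subgroup.closure (range j' ∪ ((down m f K : Set G) ∩ VS ∅))) := by
      refine h.le (fun i => ⟨j' i, Subgroup.subset_closure (Or.inl ⟨i, rfl⟩), hj' i⟩) ?_
      intro g hg hU
      obtain ⟨s, e⟩ := hrel g hg
      exact ⟨s, Subgroup.subset_closure (Or.inr ⟨⟨g, hg, e⟩, e.mem_U hU, by simp⟩), e⟩
    rintro s ⟨g, hg, e⟩
    obtain ⟨s', hs', e'⟩ := this hg
    rwa [e.unique e']

theorem St.false {I : Type} [Finite I] {K : Subgroup G} {j : I → G} (h : St K j) : False := by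
  obtain ⟨p, -, hp⟩ := exists_seq (fun _ (p : Subgroup G × (I → G)) => St p.1 p.2)
    (fun q p => ∀ i, R (q.2 i).1 (p.2 i).1) (K, j) h (by
      rintro - ⟨K, j⟩ h
      obtain ⟨K', j', h1, h2⟩ := h.step
      exact ⟨(K', j'), h1, h2⟩)
  have : ∀ᶠ n in atTop, ∀ i, ((p n).2 i).1 ∈ E := eventually_all.2 fun i =>
    InG.ev ((p 0).2 i).2 (fun n => ((p n).2 i).1) rfl fun n => (hp n).2 i
  obtain ⟨n, hn⟩ := this.exists
  have hs := (hp n).1
  have hE : (p n).1 ≤ E.comap GG.subtype := hs.le hn fun g _ hg => U_le_E hg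
  have hV : (p n).1 ≤ VS {pt 1} := by
    refine hs.2.1 _ (isOpen_of_VS le_rfl) fun k hk x hx => ?_
    have := (hE hk x.1 ⟨hx.1, hx.2 _ (by simp)⟩).1
    exact ⟨this.1, by simpa using this.2⟩
  exact hs.1 (hs.2.1.eq_bot (hV.trans (VS_anti (by simp))))

theorem SelfRes.eq_bot_of_compact {S : Set G} (hS : IsCompact S)
    (hK : SelfRes (Subgroup.closure S)) : Subgroup.closure S = ⊥ := by
  by_contra hne
  obtain ⟨T, h1, h2⟩ := hS.elim_nhds_subcover (fun x => {g | x⁻¹ * g ∈ VS ∅}) fun x _ => by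
    rw [← nhds_translation_inv_mul]
    exact preimage_mem_comap (hasBasis_one.mem_of_mem (i := ∅) trivial)
  refine St.false (I := T) (j := Subtype.val) ⟨hne, hK, fun i => Subgroup.subset_closure (h1 _ i.2),
    (Subgroup.closure_le _).2 fun g hg => ?_⟩
  obtain ⟨x, hx, e⟩ := mem_iUnion₂.1 (h2 hg)
  have : g = x * (x⁻¹ * g) := by simp
  rw [this]
  refine Subgroup.mul_mem _ (Subgroup.subset_closure (Or.inl ⟨⟨x, hx⟩, rfl⟩))
    (Subgroup.subset_closure (Or.inr ⟨?_, e⟩))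
  exact Subgroup.mul_mem _ (Subgroup.inv_mem _ (Subgroup.subset_closure (h1 x hx)))
    (Subgroup.subset_closure hg)

end Pool.Agent.Lib.MP_4e651d_al
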