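import Pool.Agent.Lib.MP_4e651d_al.Group

/-!
Sections of the elements of the group, and their behaviour along infinite paths.
-/

set_option autoImplicit false

open Set Filter

namespace Pool.Agent.Lib.MP_4e651d_al

/-- `g` shifts levels by `k` and has all its sections in the group. -/
def Str (g : Equiv.Perm X) (k : ℤ) : Prop := ∀ l h, ∃ s, InG s ∧ Sec g k l h s

theorem Str.ag {g : Equiv.Perm X} {k l : ℤ} {f f' : X} (hg : Str g k) (H : ag l f f') :
    ag (l + k) (g f) (g f') := by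
  intro l' hl
  obtain ⟨s, -, hs⟩ := hg (l' - k) f
  have e1 := hs f (ag.refl _ _)
  have e2 := hs f' (H.symm.mono (by omega))
  rw [sub_add_cancel] at e1 e2
  rw [e1, e2, H _ (by omega)]

theorem Sec.mul {g h s s' : Equiv.Perm X} {k k' l : ℤ} {x : X} (hh : Str h k')
    (h1 : Sec g k (l + k') (h x) s) (h2 : Sec h k' l x s') : Sec (g * h) (k' + k) l x (s * s') := by
  intro f hf
  have := h1 (h f) ((hh.ag hf).mono (by omega))
  rw [Equiv.Perm.mul_apply, ← add_assoc, this, h2 f hf, Equiv.Perm.mul_apply]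

theorem Str.mul {g h : Equiv.Perm X} {k k' : ℤ} (hg : Str g k) (hh : Str h k') :
    Str (g * h) (k' + k) := by
  intro l x
  obtain ⟨s, hs, h1⟩ := hg (l + k') (h x)
  obtain ⟨s', hs', h2⟩ := hh l x
  exact ⟨s * s', hs.mul hs', h1.mul hh h2⟩

theorem sec_one (l : ℤ) (h : X) : Sec 1 0 l h 1 := fun f _ => by simp

theorem str_one : Str 1 0 := fun l h => ⟨1, InG.one, sec_one l h⟩

theorem Str.unique {g : Equiv.Perm X} {k k' : ℤ} (h : Str g k) (h' : Str g k') : k = k' := by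
  have key : ∀ {k k' : ℤ}, Str g k → Str g k' → ¬ k < k' := by
    intro k k' h h' hk
    obtain ⟨s, -, hs⟩ := h' 0 0
    have e : ∀ x, s x = blk (g 0) (0 + k') := fun x => by
      rw [hs.apply]
      exact h.ag (ag_upd 0 0 x) _ (by omega)
    have := congrArg (· o) (s.injective ((e (pt 1)).trans (e 0).symm))
    simp [pt] at this
  exact le_antisymm (not_lt.1 (key h' h)) (not_lt.1 (key h h'))

open Classical in
theorem sec_io (g : Equiv.Perm X) (l : ℤ) (h : X) :
    Sec (io g) 0 l h (if van 0 h ∧ l = 0 then g else 1) := by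
  intro f hf
  rw [add_zero, blk_io]
  by_cases hl : l = 0
  · subst hl
    rw [van_congr hf]
    split_ifs <;> rfl
  · simp [hl]

theorem sec_t (k l : ℤ) (h : X) : Sec (t k) (-k) l h 1 := fun f _ => by simp [blk_t]

open Classical in
theorem sec_sp (k l : ℤ) (h : X) :
    Sec (sp k) 0 l h (if van 0 h ∧ l = 0 then sp k else if van 0 h ∧ l = -1 then t k else 1) := by
  intro f hf
  rw [add_zero, blk_sp]
  by_cases hl : l = 0
  · subst hl
    rw [van_congr hf]
    by_cases hv : van 0 h <;> simp [hv]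
  · by_cases hl' : l = -1
    · subst hl'
      rw [van_congr (hf.mono (by omega))]
      by_cases hv : van 0 h <;> simp [hv]
    · simp [hl, hl']

theorem str_io {g : Equiv.Perm X} (hg : InG g) : Str (io g) 0 := fun l h =>
  ⟨_, by split_ifs; exacts [hg, InG.one], sec_io g l h⟩

theorem str_U {g : Equiv.Perm X} (hg : g ∈ U) : Str g 0 := fun l h => by
  obtain ⟨s, hs, h1⟩ := sec_U hg l h
  exact ⟨s, InG.u hs, h1⟩

theorem str_t (k : ℤ) : Str (t k) (-k) := fun l h => ⟨1, InG.one, sec_t k l h⟩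

theorem str_sp (k : ℤ) : Str (sp k) 0 := fun l h =>
  ⟨_, by split_ifs; exacts [InG.sp k, InG.t k, InG.one], sec_sp k l h⟩

theorem InG.str {g : Equiv.Perm X} (hg : InG g) :
    ∃ k m, Str g k ∧ ∀ l h s, m < l → Sec g k l h s → s ∈ U := by
  have hio : ∀ g : Equiv.Perm X, ∀ l h s, 0 < l → Sec (Pool.Agent.Lib.MP_4e651d_al.io g) 0 l h s →
      s ∈ U := fun g l h s hl hs => by
    rw [hs.unique (sec_io g l h), if_neg (by omega)]
    exact U.one_mem
  induction hg with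
  | u hg =>
    refine ⟨0, 0, str_U hg, fun l h s _ hs => ?_⟩
    obtain ⟨s', hs', h1⟩ := sec_U hg l h
    rwa [hs.unique h1]
  | be => exact ⟨0, 0, io_be ▸ str_io InG.be, io_be ▸ hio _⟩
  | t k => exact ⟨-k, 0, str_t k, fun l h s _ hs => hs.unique (sec_t k l h) ▸ U.one_mem⟩
  | sp k =>
    refine ⟨0, 0, str_sp k, fun l h s hl hs => ?_⟩
    rw [hs.unique (sec_sp k l h), if_neg (by omega), if_neg (by omega)]
    exact U.one_mem
  | io hg _ => exact ⟨0, 0, str_io hg, hio _⟩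
  | @mul g h _ _ ih1 ih2 =>
    obtain ⟨k, m, h1, h2⟩ := ih1
    obtain ⟨k', m', h1', h2'⟩ := ih2
    refine ⟨k' + k, max m' (m - k'), h1.mul h1', fun l x s hl hs => ?_⟩
    obtain ⟨s1, -, e1⟩ := h1 (l + k') (h x)
    obtain ⟨s2, -, e2⟩ := h1' l x
    rw [hs.unique (e1.mul h1' e2)]
    exact U.mul_mem (h2 _ _ _ (by omega) e1) (h2' _ _ _ (by omega) e2)

theorem Str.inv {g : Equiv.Perm X} {k : ℤ} (hg : InG g) (h : Str g k) : Str g⁻¹ (-k) := by
  obtain ⟨k', -, h', -⟩ := hg.inv.str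
  have := h.mul h'
  rw [mul_inv_cancel] at this
  have e := this.unique str_one
  have : k' = -k := by omega
  exact this ▸ h'

/-- `s` is a section of `g`. -/
def R (s g : Equiv.Perm X) : Prop := ∃ k, Str g k ∧ ∃ l h, Sec g k l h s

theorem R.eq {s g : Equiv.Perm X} {k : ℤ} (h : R s g) (hk : Str g k) : ∃ l x, Sec g k l x s := by
  obtain ⟨k', h1, h2⟩ := h
  exact hk.unique h1 ▸ h2

/-- The normaliser of the stabiliser of the one-site configuration. -/
def E : Subgroup (Equiv.Perm X) where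
  carrier := {g | ∀ v, Vp v → Vp (g * v * g⁻¹) ∧ Vp (g⁻¹ * v * g)}
  one_mem' v hv := by simpa using hv
  mul_mem' := by
    intro g h hg hh v hv
    exact ⟨by simpa [mul_assoc] using (hg _ (hh v hv).1).1,
      by simpa [mul_assoc] using (hh _ (hg v hv).2).2⟩
  inv_mem' := by
    intro g hg v hv
    exact ⟨by simpa using (hg v hv).2, by simpa using (hg v hv).1⟩

theorem U_le_E : U ≤ E := fun _ hg _ hv =>
  ⟨hv.conj_U hg, by simpa using hv.conj_U (U.inv_mem hg)⟩

theorem be_mem_E : be ∈ E := fun _ hv => ⟨hv.conj_be, by simpa [be_inv] using hv.conj_be⟩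

theorem sp_mem_E (k : ℤ) : sp k ∈ E := fun _ hv =>
  ⟨hv.conj_sp k, by simpa [sp_inv] using hv.conj_sp (-k)⟩

/-- Along every path the iterated sections end up in `E`. -/
def Ev (g : Equiv.Perm X) : Prop :=
  ∀ a : ℕ → Equiv.Perm X, a 0 = g → (∀ n, R (a (n + 1)) (a n)) → ∀ᶠ n in atTop, a n ∈ E

theorem Ev.shift {a : ℕ → Equiv.Perm X} (ha : ∀ n, R (a (n + 1)) (a n)) {m : ℕ} (h : Ev (a m)) :
    ∀ᶠ n in atTop, a n ∈ E := by
  obtain ⟨N, hN⟩ := eventually_atTop.1 (h (fun n => a (m + n)) rfl fun n => ha (m + n))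
  refine eventually_atTop.2 ⟨m + N, fun n hn => ?_⟩
  have := hN (n - m) (by omega)
  rwa [show m + (n - m) = n by omega] at this

theorem ev_step {g : Equiv.Perm X} (h : ∀ s, R s g → Ev s) : Ev g :=
  fun _ h0 ha => Ev.shift ha (h _ (h0 ▸ ha 0))

theorem ev_coind (A : Set (Equiv.Perm X)) (hA : A ⊆ E) (h : ∀ g ∈ A, ∀ s, R s g → s ∈ A ∨ Ev s)
    {g : Equiv.Perm X} (hg : g ∈ A) : Ev g := by
  intro a h0 ha
  by_contra hne
  have : ∀ n, a n ∈ A := fun n => by
    induction n with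
    | zero => exact h0 ▸ hg
    | succ n ih => exact (h _ ih _ (ha n)).resolve_right fun h' => hne (Ev.shift ha h')
  exact hne (Eventually.of_forall fun n => hA (this n))

theorem exists_seq {α : Type*} (P : ℕ → α → Prop) (Q : α → α → Prop) (a0 : α) (h0 : P 0 a0)
    (step : ∀ n a, P n a → ∃ b, P (n + 1) b ∧ Q b a) :
    ∃ f : ℕ → α, f 0 = a0 ∧ ∀ n, P n (f n) ∧ Q (f (n + 1)) (f n) := by
  choose g hg using step
  let f : (n : ℕ) → {a // P n a} := fun n =>
    Nat.rec ⟨a0, h0⟩ (fun n p => ⟨g n p.1 p.2, (hg n p.1 p.2).1⟩) n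
  exact ⟨fun n => (f n).1, rfl, fun n => ⟨(f n).2, (hg n (f n).1 (f n).2).2⟩⟩

theorem ev_U {g : Equiv.Perm X} (hg : g ∈ U) : Ev g := by
  refine ev_coind U U_le_E (fun g hg s hs => Or.inl ?_) hg
  obtain ⟨l, x, h⟩ := hs.eq (str_U hg)
  obtain ⟨s', hs', h'⟩ := sec_U hg l x
  rwa [h.unique h']

theorem ev_t (k : ℤ) : Ev (t k) := by
  refine ev_step fun s hs => ?_
  obtain ⟨l, x, h⟩ := hs.eq (str_t k)
  rw [h.unique (sec_t k l x)]
  exact ev_U U.one_mem

theorem InG.ev {g : Equiv.Perm X} (hg : InG g) : Ev g := by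
  have hio : ∀ g s : Equiv.Perm X, InG g → R s (Pool.Agent.Lib.MP_4e651d_al.io g) →
      s = g ∨ s = 1 := fun g s hg hs => by
    obtain ⟨l, x, h⟩ := hs.eq (str_io hg)
    rw [h.unique (sec_io g l x)]
    split_ifs <;> simp
  induction hg with
  | u hg => exact ev_U hg
  | be =>
    refine ev_coind {Pool.Agent.Lib.MP_4e651d_al.be} (by simpa using be_mem_E) ?_ rfl
    rintro _ rfl s hs
    rcases hio _ s InG.be (io_be.symm ▸ hs) with h | h
    · exact Or.inl h
    · exact Or.inr (h ▸ ev_U U.one_mem)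
  | t k => exact ev_t k
  | sp k =>
    refine ev_coind {Pool.Agent.Lib.MP_4e651d_al.sp k} (by simpa using sp_mem_E k) ?_ rfl
    rintro _ rfl s hs
    obtain ⟨l, x, h⟩ := hs.eq (str_sp k)
    rw [h.unique (sec_sp k l x)]
    split_ifs
    · exact Or.inl rfl
    · exact Or.inr (ev_t k)
    · exact Or.inr (ev_U U.one_mem)
  | io hg ih =>
    refine ev_step fun s hs => ?_
    rcases hio _ s hg hs with h | h
    · exact h ▸ ih
    · exact h ▸ ev_U U.one_mem
  | @mul x y hx hy ih1 ih2 =>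
    intro a h0 ha
    obtain ⟨p, hp0, hp⟩ := exists_seq
      (fun n (p : Equiv.Perm X × Equiv.Perm X) => InG p.1 ∧ InG p.2 ∧ a n = p.1 * p.2)
      (fun q p => R q.1 p.1 ∧ R q.2 p.2) (x, y) ⟨hx, hy, h0⟩ (by
        rintro n ⟨x, y⟩ ⟨hx, hy, e⟩
        obtain ⟨k, -, h1, -⟩ := hx.str
        obtain ⟨k', -, h2, -⟩ := hy.str
        obtain ⟨l, z, h⟩ := (e ▸ ha n).eq (h1.mul h2)
        obtain ⟨s1, g1, e1⟩ := h1 (l + k') (y z)
        obtain ⟨s2, g2, e2⟩ := h2 l z
        exact ⟨(s1, s2), ⟨g1, g2, h.unique (e1.mul h2 e2)⟩, ⟨k, h1, _, _, e1⟩, ⟨k', h2, _, _, e2⟩⟩)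
    filter_upwards [ih1 (fun n => (p n).1) (by rw [hp0]) fun n => (hp n).2.1,
      ih2 (fun n => (p n).2) (by rw [hp0]) fun n => (hp n).2.2] with n e1 e2
    rw [(hp n).1.2.2]
    exact E.mul_mem e1 e2

end Pool.Agent.Lib.MP_4e651d_al
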