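import Mathlib

/-!
Sites, configurations and the basic permutations of a self-similar stacking group.
-/

set_option autoImplicit false

open Set

namespace Pool.Agent.Lib.MP_4e651d_al

/-- Sites: finitely supported integer sequences, ordered lexicographically. -/
def Om : Type := Lex (ℕ →₀ ℤ)

noncomputable instance : LinearOrder Om := inferInstanceAs (LinearOrder (Lex (ℕ →₀ ℤ)))

instance : Countable Om := inferInstanceAs (Countable (ℕ →₀ ℤ))

/-- Coordinates of a site. -/
def co (w : Om) (n : ℕ) : ℤ := (show ℕ →₀ ℤ from w) n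

/-- A site from a finitely supported sequence. -/
noncomputable def mk (a : ℕ → ℤ) (h : (Function.support a).Finite) : Om :=
  (Finsupp.ofSupportFinite a h : ℕ →₀ ℤ)

@[simp] theorem co_mk (a : ℕ → ℤ) (h : (Function.support a).Finite) (n : ℕ) :
    co (mk a h) n = a n := rfl

theorem co_fin (w : Om) : (Function.support (co w)).Finite :=
  Finsupp.hasFiniteSupport (show ℕ →₀ ℤ from w)

theorem Om.ext' {a b : Om} (h : ∀ n, co a n = co b n) : a = b :=
  Finsupp.ext (f := (show ℕ →₀ ℤ from a)) (g := (show ℕ →₀ ℤ from b)) h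

theorem lt_iff {a b : Om} : a < b ↔ ∃ i, (∀ j, j < i → co a j = co b j) ∧ co a i < co b i :=
  Iff.rfl

/-- Put a new first coordinate in front of a site. -/
noncomputable def c (l : ℤ) (s : Om) : Om :=
  mk (fun n => Nat.casesOn n l (co s)) (by
    refine ((co_fin s).image Nat.succ).insert 0 |>.subset ?_
    intro n hn
    cases n with
    | zero => simp
    | succ n => exact Or.inr ⟨n, hn, rfl⟩)

/-- Drop the first coordinate. -/
noncomputable def tl (w : Om) : Om :=
  mk (fun n => co w (n + 1)) ((co_fin w).preimage (Nat.succ_injective.injOn))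

/-- The zero site. -/
noncomputable def o : Om := mk (fun _ => 0) (by simp)

@[simp] theorem co_c_zero (l : ℤ) (s : Om) : co (c l s) 0 = l := rfl
@[simp] theorem co_c_succ (l : ℤ) (s : Om) (n : ℕ) : co (c l s) (n + 1) = co s n := rfl
@[simp] theorem co_tl (w : Om) (n : ℕ) : co (tl w) n = co w (n + 1) := rfl
@[simp] theorem co_o (n : ℕ) : co o n = 0 := rfl

@[simp] theorem tl_c (l : ℤ) (s : Om) : tl (c l s) = s := Om.ext' fun _ => rfl

theorem c_tl (w : Om) : c (co w 0) (tl w) = w :=
  Om.ext' fun n => by cases n <;> rfl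

theorem c_o : c 0 o = o := Om.ext' fun n => by cases n <;> rfl

theorem c_cases (w : Om) : ∃ l s, w = c l s := ⟨_, _, (c_tl w).symm⟩

@[simp] theorem c_inj {l l' : ℤ} {s s' : Om} : c l s = c l' s' ↔ l = l' ∧ s = s' := by
  constructor
  · intro h
    exact ⟨by simpa using congrArg (co · 0) h, by simpa using congrArg tl h⟩
  · rintro ⟨rfl, rfl⟩; rfl

theorem c_injective (l : ℤ) : Function.Injective (c l) := fun _ _ h => (c_inj.1 h).2

theorem c_lt_c {l l' : ℤ} {s s' : Om} : c l s < c l' s' ↔ l < l' ∨ (l = l' ∧ s < s') := by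
  rw [lt_iff, lt_iff]
  constructor
  · rintro ⟨i, h1, h2⟩
    cases i with
    | zero => exact Or.inl h2
    | succ i =>
      refine Or.inr ⟨h1 0 (Nat.succ_pos i), i, fun j hj => h1 (j + 1) (by omega), h2⟩
  · rintro (h | ⟨rfl, i, h1, h2⟩)
    · exact ⟨0, by simp, h⟩
    · refine ⟨i + 1, fun j hj => ?_, h2⟩
      cases j with
      | zero => rfl
      | succ j => exact h1 j (by omega)

theorem c_le_c {l l' : ℤ} {s s' : Om} : c l s ≤ c l' s' ↔ l < l' ∨ (l = l' ∧ s ≤ s') := by
  rw [le_iff_lt_or_eq, le_iff_lt_or_eq, c_lt_c, c_inj]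
  tauto

/-- Configurations. -/
abbrev X : Type := Om →₀ ZMod 3

/-- Pull a configuration back along an injective map of sites. -/
noncomputable def pull (a : Om → Om) (ha : Function.Injective a) (f : X) : X :=
  Finsupp.ofSupportFinite (fun w => f (a w)) ((Finsupp.hasFiniteSupport f).preimage ha.injOn)

@[simp] theorem pull_apply (a : Om → Om) (ha : Function.Injective a) (f : X) (w : Om) :
    pull a ha f w = f (a w) := rfl

/-- The block of a configuration at a level. -/
noncomputable def blk (f : X) (l : ℤ) : X := pull (c l) (c_injective l) f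

theorem blk_apply (f : X) (l : ℤ) (s : Om) : blk f l s = f (c l s) := rfl

@[simp] theorem blk_zero (l : ℤ) : blk 0 l = 0 := by ext s; rfl

theorem ext_blk {f g : X} (h : ∀ l, blk f l = blk g l) : f = g := by
  ext w
  obtain ⟨l, s, rfl⟩ := c_cases w
  exact congrArg (· s) (h l)

/-- Replace one block. -/
noncomputable def upd (f : X) (l : ℤ) (x : X) : X :=
  Finsupp.ofSupportFinite (fun w => if co w 0 = l then x (tl w) else f w) (by
    refine ((Finsupp.hasFiniteSupport f).union ((Finsupp.hasFiniteSupport x).image (c l))).subset ?_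
    intro w hw
    by_cases h : co w 0 = l
    · simp only [Function.mem_support, h, if_true] at hw
      exact Or.inr ⟨tl w, hw, by rw [← h, c_tl]⟩
    · simp only [Function.mem_support, h, if_false] at hw
      exact Or.inl hw)

theorem blk_upd (f : X) (l : ℤ) (x : X) (l' : ℤ) :
    blk (upd f l x) l' = if l' = l then x else blk f l' := by
  ext s
  change (if co (c l' s) 0 = l then x (tl (c l' s)) else f (c l' s)) = _
  by_cases h : l' = l
  · simp [h]
  · simp [h, blk_apply]

/-- Agreement at all levels from `l` on. -/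
def ag (l : ℤ) (f g : X) : Prop := ∀ l', l ≤ l' → blk f l' = blk g l'

theorem ag.refl (l : ℤ) (f : X) : ag l f f := fun _ _ => rfl
theorem ag.symm {l : ℤ} {f g : X} (h : ag l f g) : ag l g f := fun l' hl => (h l' hl).symm
theorem ag.trans {l : ℤ} {f g h : X} (h1 : ag l f g) (h2 : ag l g h) : ag l f h :=
  fun l' hl => (h1 l' hl).trans (h2 l' hl)
theorem ag.mono {l l' : ℤ} {f g : X} (h : ag l f g) (hl : l ≤ l') : ag l' f g :=
  fun m hm => h m (hl.trans hm)

theorem ag_upd (f : X) (l : ℤ) (x : X) : ag (l + 1) (upd f l x) f := by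
  intro l' hl
  rw [blk_upd, if_neg (by omega)]

/-- Vanishing at all levels above `n`. -/
def van (n : ℤ) (f : X) : Prop := ∀ l, n < l → blk f l = 0

theorem van.mono {n m : ℤ} {f : X} (h : van n f) (hl : n ≤ m) : van m f :=
  fun l hm => h l (by omega)

theorem van_congr {n : ℤ} {f g : X} (h : ag (n + 1) f g) : van n f ↔ van n g :=
  forall_congr' fun l => imp_congr_right fun hl => by rw [h l (by omega)]

/-- Triangular maps. -/
def Tri (g : X → X) : Prop :=
  ∀ w f f', (∀ w', w ≤ w' → f w' = f' w') → g f w = g f' w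

/-- Support preserving maps. -/
def Sup (g : X → X) : Prop := ∀ f w, g f w = 0 ↔ f w = 0

theorem Tri.comp {g h : X → X} (hg : Tri g) (hh : Tri h) : Tri (fun f => g (h f)) :=
  fun w f f' H => hg w _ _ fun w' hw' => hh w' f f' fun w'' hw'' => H w'' (hw'.trans hw'')

theorem Tri.ag {g : X → X} (hg : Tri g) {l : ℤ} {f f' : X} (h : ag l f f') :
    ag l (g f) (g f') := by
  intro l' hl
  ext s
  refine hg _ _ _ fun w' hw' => ?_
  obtain ⟨m, s', rfl⟩ := c_cases w'
  have : l ≤ m := by rcases c_le_c.1 hw' with h | h <;> omega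
  exact congrArg (· s') (h m this)

theorem Sup.blk {g : X → X} (hg : Sup g) (f : X) (l : ℤ) : blk (g f) l = 0 ↔ blk f l = 0 := by
  simp only [Finsupp.ext_iff, blk_apply, Finsupp.coe_zero, Pi.zero_apply, hg _ _]

theorem Sup.van {g : X → X} (hg : Sup g) (n : ℤ) (f : X) : van n (g f) ↔ van n f :=
  forall_congr' fun l => imp_congr_right fun _ => hg.blk f l

theorem Sup.zero {g : X → X} (hg : Sup g) : g 0 = 0 := by
  ext w; exact (hg 0 w).2 rfl

/-- The compact open subgroup. -/
def U : Subgroup (Equiv.Perm X) where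
  carrier := {g | Tri g ∧ Tri (g⁻¹ : Equiv.Perm X) ∧ Sup g}
  one_mem' := ⟨fun w _ _ h => h w le_rfl, fun w _ _ h => h w le_rfl, fun _ _ => Iff.rfl⟩
  mul_mem' := by
    rintro g h ⟨g1, g2, g3⟩ ⟨h1, h2, h3⟩
    refine ⟨g1.comp h1, ?_, fun f w => (g3 _ w).trans (h3 f w)⟩
    rw [mul_inv_rev]
    exact h2.comp g2
  inv_mem' := by
    rintro g ⟨g1, g2, g3⟩
    refine ⟨g2, by simpa using g1, fun f w => ?_⟩
    rw [← g3]
    simp

theorem mem_U {g : Equiv.Perm X} : g ∈ U ↔ Tri g ∧ Tri (g⁻¹ : Equiv.Perm X) ∧ Sup g := Iff.rfl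

/-- To put conjugates into `U` it is enough to check two conditions. -/
theorem conj_mem_U {g : Equiv.Perm X} {A : Equiv.Perm X → Prop} (hA : ∀ u, A u → A u⁻¹)
    (h1 : ∀ u, A u → Tri (g * u * g⁻¹ : Equiv.Perm X))
    (h2 : ∀ u, A u → Sup (g * u * g⁻¹ : Equiv.Perm X)) (u : Equiv.Perm X) (hu : A u) :
    g * u * g⁻¹ ∈ U := by
  refine ⟨h1 u hu, ?_, h2 u hu⟩
  have := h1 _ (hA u hu)
  simpa [mul_assoc] using this

/-- Shift of the first coordinate of a site. -/
noncomputable def sh (k : ℤ) (w : Om) : Om := c (co w 0 + k) (tl w)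

@[simp] theorem sh_c (k l : ℤ) (s : Om) : sh k (c l s) = c (l + k) s := by simp [sh]

theorem sh_sh (k k' : ℤ) (w : Om) : sh k (sh k' w) = sh (k' + k) w := by
  obtain ⟨l, s, rfl⟩ := c_cases w
  simp [add_assoc]

theorem sh_zero (w : Om) : sh 0 w = w := by
  obtain ⟨l, s, rfl⟩ := c_cases w
  simp

theorem sh_injective (k : ℤ) : Function.Injective (sh k) := by
  intro a b h
  have := congrArg (sh (-k)) h
  simpa [sh_sh, sh_zero] using this

theorem sh_mono (k : ℤ) {a b : Om} (h : a ≤ b) : sh k a ≤ sh k b := by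
  obtain ⟨l, s, rfl⟩ := c_cases a
  obtain ⟨l', s', rfl⟩ := c_cases b
  simp only [sh_c, c_le_c] at h ⊢
  rcases h with h | h
  · left; omega
  · right; exact ⟨by omega, h.2⟩

/-- The shift of levels. -/
noncomputable def t (k : ℤ) : Equiv.Perm X where
  toFun := pull (sh k) (sh_injective k)
  invFun := pull (sh (-k)) (sh_injective _)
  left_inv f := by ext w; simp [sh_sh, sh_zero]
  right_inv f := by ext w; simp [sh_sh, sh_zero]

theorem t_apply (k : ℤ) (f : X) (w : Om) : t k f w = f (sh k w) := rfl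

theorem t_inv (k : ℤ) : (t k)⁻¹ = t (-k) := by ext f w; rfl

theorem t_add (k k' : ℤ) : t (k + k') = t k * t k' := by
  ext f w
  simp [t_apply, sh_sh]

theorem t_zero : t 0 = 1 := by ext f w; simp [t_apply, sh_zero]

theorem blk_t (k : ℤ) (f : X) (l : ℤ) : blk (t k f) l = blk f (l + k) := by
  ext s; simp [blk_apply, t_apply]

theorem t_conj (k : ℤ) (u : Equiv.Perm X) (hu : u ∈ U) : t k * u * (t k)⁻¹ ∈ U := by
  refine conj_mem_U (A := (· ∈ U)) (fun u hu => U.inv_mem hu) ?_ ?_ u hu
  · intro u hu w f f' H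
    simp only [Equiv.Perm.mul_apply, t_inv, t_apply]
    refine hu.1 _ _ _ fun w' hw' => ?_
    rw [t_apply, t_apply]
    refine H _ ?_
    simpa [sh_sh, sh_zero] using sh_mono (-k) hw'
  · intro u hu f w
    simp only [Equiv.Perm.mul_apply, t_inv, t_apply]
    rw [hu.2.2, t_apply, sh_sh]
    simp [sh_zero]

end Pool.Agent.Lib.MP_4e651d_al
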